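import Pool.Agent.N465.L2q.Defq

/-! Version with slack for the five-sets with an odd number of edges. -/

set_option autoImplicit false
set_option maxRecDepth 100000

namespace Pool.Agent.N465.L2



/-- the entry `ztq m l` is the diagonal sum plus `2^39`, and not too small -/
def chZq (m l : ℕ) : Bool :=
  st (fun c0 => st (fun c1 => st (fun c2 => st (fun c3 => st (fun c4 => st (fun z =>
    cnd (Nat.ble 274877906944 z)
      (Nat.beq (Nat.add z (Nat.add (dt c0 c0) (Nat.add (dt c1 c1) (Nat.add (dt c2 c2) (Nat.add (dt c3 c3) (dt c4 c4))))))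
        (Nat.add 549755813888 (Nat.add (ccq (Nat.mod c0 32)) (Nat.add (ccq (Nat.mod c1 32)) (Nat.add (ccq (Nat.mod c2 32))
          (Nat.add (ccq (Nat.mod c3 32)) (ccq (Nat.mod c4 32)))))))) false)
    (ztq m l)) (Nat.add (q4 l) (cs m 4))) (Nat.add (q3 l) (cs m 3))) (Nat.add (q2 l) (cs m 2)))
    (Nat.add (q1 l) (cs m 1))) (Nat.add (q0 l) (cs m 0))

theorem tabZ0q : al 8 (fun m => al 1024 (chZq m)) = true := by decide +kernel
theorem tabZ1q : al 8 (fun m => st (fun m' => al 1024 (chZq m')) (Nat.add 8 m)) = true := by decide +kernel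
theorem tabZ2q : al 8 (fun m => st (fun m' => al 1024 (chZq m')) (Nat.add 16 m)) = true := by decide +kernel
theorem tabZ3q : al 8 (fun m => st (fun m' => al 1024 (chZq m')) (Nat.add 24 m)) = true := by decide +kernel



end Pool.Agent.N465.L2
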