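import Pool.Agent.N465.L2.Bits
import Pool.Agent.N465.L2q.TabZq

/-! Version with slack for the five-sets with an odd number of edges. -/

set_option autoImplicit false
set_option linter.unusedVariables false

namespace Pool.Agent.N465.L2

/-- the certificate with slack -/
def psiq (m l l' : ℕ) : ℤ := (ccq m : ℤ) - (dt (m + 32 * l) (m + 32 * l') : ℤ)

theorem cc_ltq (m : ℕ) : ccq m < 68719476736 := Nat.mod_lt _ (by norm_num)

theorem chZ_specq {m l : ℕ} (hm : m < 32) (hl : l < 1024) : chZq m l = true := by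
  rcases Nat.lt_or_ge m 8 with h | h
  · exact al_true (al_true tabZ0q m h) l hl
  rcases Nat.lt_or_ge m 16 with h' | h'
  · have h1 := al_true tabZ1q (m - 8) (by omega)
    simp only [st_eq] at h1
    have e : Nat.add 8 (m - 8) = m := by
      show 8 + (m - 8) = m
      omega
    rw [e] at h1
    exact al_true h1 l hl
  rcases Nat.lt_or_ge m 24 with h'' | h''
  · have h1 := al_true tabZ2q (m - 16) (by omega)
    simp only [st_eq] at h1
    have e : Nat.add 16 (m - 16) = m := by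
      show 16 + (m - 16) = m
      omega
    rw [e] at h1
    exact al_true h1 l hl
  · have h1 := al_true tabZ3q (m - 24) (by omega)
    simp only [st_eq] at h1
    have e : Nat.add 24 (m - 24) = m := by
      show 24 + (m - 24) = m
      omega
    rw [e] at h1
    exact al_true h1 l hl

/-- the diagonal values -/
def dg0q (c : ℕ) : ℤ := (ccq (c % 32) : ℤ) - (dt c c : ℤ)

theorem zt_specq {b0 b1 b2 b3 b4 e01 e02 e03 e04 e12 e13 e14 e23 e24 e34 : ℕ} (hb0 : b0 < 2) (hb1 : b1 < 2) (hb2 : b2 < 2) (hb3 : b3 < 2) (hb4 : b4 < 2) (he01 : e01 < 2) (he02 : e02 < 2) (he03 : e03 < 2) (he04 : e04 < 2) (he12 : e12 < 2) (he13 : e13 < 2) (he14 : e14 < 2) (he23 : e23 < 2) (he24 : e24 < 2) (he34 : e34 < 2) :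
    274877906944 ≤ ztq (cm b0 b1 b2 b3 b4) (cl e01 e02 e03 e04 e12 e13 e14 e23 e24 e34) ∧
    (ztq (cm b0 b1 b2 b3 b4) (cl e01 e02 e03 e04 e12 e13 e14 e23 e24 e34) : ℤ) = 549755813888 + (dg0q (Q0 b0 b1 b2 b3 b4 e01 e02 e03 e04 e12 e13 e14 e23 e24 e34) + dg0q (Q1 b0 b1 b2 b3 b4 e01 e02 e03 e04 e12 e13 e14 e23 e24 e34) + dg0q (Q2 b0 b1 b2 b3 b4 e01 e02 e03 e04 e12 e13 e14 e23 e24 e34) + dg0q (Q3 b0 b1 b2 b3 b4 e01 e02 e03 e04 e12 e13 e14 e23 e24 e34) + dg0q (Q4 b0 b1 b2 b3 b4 e01 e02 e03 e04 e12 e13 e14 e23 e24 e34)) := by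
  have hl := cl_lt he01 he02 he03 he04 he12 he13 he14 he23 he24 he34
  have hm := cm_lt hb0 hb1 hb2 hb3 hb4
  have h := chZ_specq hm hl
  obtain ⟨u0, u1, u2, u3, u4⟩ := qc_spec hb0 hb1 hb2 hb3 hb4 he01 he02 he03 he04 he12 he13 he14 he23 he24 he34
  unfold chZq at h
  simp only [st_eq, u0, u1, u2, u3, u4] at h
  obtain ⟨h1, h2⟩ := cnd_false h
  refine ⟨Nat.le_of_ble_eq_true h1, ?_⟩
  have h3 := Nat.eq_of_beq_eq_true h2
  simp only [Nat.add_eq] at h3
  unfold dg0q
  have e : ∀ c, Nat.mod c 32 = c % 32 := fun _ => rfl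
  simp only [e] at h3
  zify at h3
  linarith

theorem dg0_eqq {m l : ℕ} (hm : m < 32) : dg0q (m + 32 * l) = psiq m l l := by
  unfold dg0q psiq
  rw [show (m + 32 * l) % 32 = m by omega]

theorem tm_eqq {m l l' : ℕ} (hm : m < 32) : (tmq (m + 32 * l) (m + 32 * l') : ℤ) = psiq m l l' + 68719476736 := by
  unfold tmq psiq
  have e : Nat.mod (m + 32 * l) 32 = m := by
    show (m + 32 * l) % 32 = m
    omega
  rw [e]
  simp only [Nat.add_eq, Nat.sub_eq]
  have h := dt_lt (m + 32 * l) (m + 32 * l')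
  generalize dt (m + 32 * l) (m + 32 * l') = D at *
  generalize ccq m = C at *
  rw [Nat.cast_sub (by omega)]
  push_cast
  ring

/-- the value of `gvq` for codes that are not excluded -/
theorem gv_eqq {m a dl l : ℕ} (h1 : okl m l = true) (h2 : pc l ≤ dl) (h3 : 274877906944 ≤ ztq m l) :
    (gvq m a dl l : ℤ) = (ztq m l : ℤ) + 2 * psiq m a l := by
  unfold gvq psiq
  have e1 : Nat.ble (pc l) dl = true := Nat.ble_eq_true_of_le h2
  rw [h1, e1, cnd_t, cnd_t]
  simp only [Nat.add_eq, Nat.sub_eq, Nat.mul_eq]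
  have h := dt_lt (m + 32 * a) (m + 32 * l)
  generalize dt (m + 32 * a) (m + 32 * l) = D at *
  generalize ccq m = C at *
  generalize ztq m l = Z at *
  rw [Nat.cast_sub (by omega)]
  push_cast
  ring


end Pool.Agent.N465.L2
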