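import Pool.Agent.N465.L2.CRT
import Pool.Agent.N465.L2q.Bitsq

/-! The certificate properties of the certificate with slack. -/

set_option autoImplicit false
set_option maxRecDepth 100000

open Finset

namespace Pool.Agent.N465.L2

/-- the slack: `1000000` if the number of non-edges is 2 or 4 -/
def sl : ℕ → ℕ
  | 2 => 1000000
  | 4 => 1000000
  | _ => 0

def chS (m : ℕ) : Bool := Nat.beq (ccq m + sl (oneM m)) (cc m)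

theorem tabS : al 32 chS = true := by decide +kernel

theorem ccq_eq {m : ℕ} (hm : m < 32) : ccq m + sl (oneM m) = cc m := Nat.eq_of_beq_eq_true (al_true tabS m hm)

/-- the certificate with slack, restricted to the range of the codes -/
def psiS (m l l' : ℕ) : ℤ := if m < 32 ∧ l < 1024 ∧ l' < 1024 then psi' m l l' - (sl (oneM m) : ℤ) else 0

theorem psiS_eq {m l l' : ℕ} (hm : m < 32) (hl : l < 1024) (hl' : l' < 1024) :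
    psiS m l l' = psi' m l l' - (sl (oneM m) : ℤ) := if_pos ⟨hm, hl, hl'⟩

theorem psiS_q {m l l' : ℕ} (hm : m < 32) (hl : l < 1024) (hl' : l' < 1024) : psiS m l l' = psiq m l l' := by
  rw [psiS_eq hm hl hl', psi'_eq hm hl hl']
  unfold psi psiq
  have h := ccq_eq hm
  have h' : (ccq m : ℤ) + (sl (oneM m) : ℤ) = (cc m : ℤ) := by exact_mod_cast h
  rw [← h']
  ring

theorem psiS_congr {m m2 l l2 k k2 : ℕ} (hm : m < 32) (hm2 : m2 < 32) (hl : l < 1024) (hl2 : l2 < 1024)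
    (hk : k < 1024) (hk2 : k2 < 1024) (h : psi' m l k = psi' m2 l2 k2) (ho : oneM m = oneM m2) :
    psiS m l k = psiS m2 l2 k2 := by
  rw [psiS_eq hm hl hk, psiS_eq hm2 hl2 hk2, h, ho]

theorem oneM_cm {b0 b1 b2 b3 b4 : ℕ} (h0 : b0 < 2) (h1 : b1 < 2) (h2 : b2 < 2) (h3 : b3 < 2) (h4 : b4 < 2) :
    oneM (cm b0 b1 b2 b3 b4) = b0 + b1 + b2 + b3 + b4 := by
  unfold oneM
  rw [bt0_cm h0 h1 h2 h3 h4, bt1_cm h0 h1 h2 h3 h4, bt2_cm h0 h1 h2 h3 h4, bt3_cm h0 h1 h2 h3 h4,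
    bt4_cm h0 h1 h2 h3 h4]

/-- the sharper sum of squares estimate -/
theorem psdS {ψ : ℕ → ℕ → ℕ → ℤ} (hψ : Cert ψ) (hS : ∀ m < 32, ∀ l < 1024, ∀ l' < 1024,
      psiS m l l' = ψ m l l' - (sl (oneM m) : ℤ))
    {b0 b1 b2 b3 b4 : ℕ} (h0 : b0 < 2) (h1 : b1 < 2) (h2 : b2 < 2) (h3 : b3 < 2) (h4 : b4 < 2)
    (V : Type) [Fintype V] (l : V → ℕ) (hl : ∀ v, l v < 1024) :
    ∑ y, ∑ z, psiS (cm b0 b1 b2 b3 b4) (l y) (l z)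
      ≤ (2000000 * ck (b0 + b1 + b2 + b3 + b4) - (sl (b0 + b1 + b2 + b3 + b4) : ℤ)) * (Fintype.card V : ℤ) ^ 2 := by
  have hm := cm_lt h0 h1 h2 h3 h4
  have e : ∑ y, ∑ z, psiS (cm b0 b1 b2 b3 b4) (l y) (l z)
      = ∑ y, ∑ z, ψ (cm b0 b1 b2 b3 b4) (l y) (l z)
        - (sl (b0 + b1 + b2 + b3 + b4) : ℤ) * (Fintype.card V : ℤ) ^ 2 := by
    have e1 : ∀ y z : V, psiS (cm b0 b1 b2 b3 b4) (l y) (l z)
        = ψ (cm b0 b1 b2 b3 b4) (l y) (l z) - (sl (b0 + b1 + b2 + b3 + b4) : ℤ) := by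
      intro y z
      rw [hS _ hm _ (hl y) _ (hl z), oneM_cm h0 h1 h2 h3 h4]
    simp only [e1, Finset.sum_sub_distrib, Finset.sum_const, Finset.card_univ, nsmul_eq_mul]
    ring
  rw [e]
  have := hψ.psd b0 b1 b2 b3 b4 h0 h1 h2 h3 h4 V l hl
  linarith

theorem sl_nonneg (k : ℕ) : (0 : ℤ) ≤ (sl k : ℤ) := Int.natCast_nonneg _

theorem certS_of (hψ : Cert psi') : Cert psiS := by
  constructor
  · intro m l l'
    unfold psiS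
    by_cases hc : m < 32 ∧ l < 1024 ∧ l' < 1024
    · rw [if_pos hc, if_pos ⟨hc.1, hc.2.2, hc.2.1⟩, hψ.sym m l l']
    · rw [if_neg hc, if_neg (fun h => hc ⟨h.1, h.2.2, h.2.1⟩)]
  · intro b0 b1 b2 b3 b4 e01 e02 e03 e04 e12 e13 e14 e23 e24 e34 f01 f02 f03 f04 f12 f13 f14 f23
      f24 f34 h0 h1 h2 h3 h4 g01 g02 g03 g04 g12 g13 g14 g23 g24 g34 k01 k02 k03 k04 k12 k13 k14
      k23 k24 k34
    refine psiS_congr (cm_lt h1 h0 h2 h3 h4) (cm_lt h0 h1 h2 h3 h4) (cl_lt g01 g12 g13 g14 g02 g03 g04 g23 g24 g34)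
      (cl_lt g01 g02 g03 g04 g12 g13 g14 g23 g24 g34) (cl_lt k01 k12 k13 k14 k02 k03 k04 k23 k24 k34)
      (cl_lt k01 k02 k03 k04 k12 k13 k14 k23 k24 k34)
      (hψ.inv0 _ _ _ _ _ _ _ _ _ _ _ _ _ _ _ _ _ _ _ _ _ _ _ _ _ h0 h1 h2 h3 h4 g01 g02 g03 g04 g12 g13 g14 g23
        g24 g34 k01 k02 k03 k04 k12 k13 k14 k23 k24 k34) ?_
    rw [oneM_cm h1 h0 h2 h3 h4, oneM_cm h0 h1 h2 h3 h4]
    ring
  · intro b0 b1 b2 b3 b4 e01 e02 e03 e04 e12 e13 e14 e23 e24 e34 f01 f02 f03 f04 f12 f13 f14 f23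
      f24 f34 h0 h1 h2 h3 h4 g01 g02 g03 g04 g12 g13 g14 g23 g24 g34 k01 k02 k03 k04 k12 k13 k14
      k23 k24 k34
    refine psiS_congr (cm_lt h0 h2 h1 h3 h4) (cm_lt h0 h1 h2 h3 h4) (cl_lt g02 g01 g03 g04 g12 g23 g24 g13 g14 g34)
      (cl_lt g01 g02 g03 g04 g12 g13 g14 g23 g24 g34) (cl_lt k02 k01 k03 k04 k12 k23 k24 k13 k14 k34)
      (cl_lt k01 k02 k03 k04 k12 k13 k14 k23 k24 k34)
      (hψ.inv1 _ _ _ _ _ _ _ _ _ _ _ _ _ _ _ _ _ _ _ _ _ _ _ _ _ h0 h1 h2 h3 h4 g01 g02 g03 g04 g12 g13 g14 g23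
        g24 g34 k01 k02 k03 k04 k12 k13 k14 k23 k24 k34) ?_
    rw [oneM_cm h0 h2 h1 h3 h4, oneM_cm h0 h1 h2 h3 h4]
    ring
  · intro b0 b1 b2 b3 b4 e01 e02 e03 e04 e12 e13 e14 e23 e24 e34 f01 f02 f03 f04 f12 f13 f14 f23
      f24 f34 h0 h1 h2 h3 h4 g01 g02 g03 g04 g12 g13 g14 g23 g24 g34 k01 k02 k03 k04 k12 k13 k14
      k23 k24 k34
    refine psiS_congr (cm_lt h0 h1 h3 h2 h4) (cm_lt h0 h1 h2 h3 h4) (cl_lt g01 g03 g02 g04 g13 g12 g14 g23 g34 g24)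
      (cl_lt g01 g02 g03 g04 g12 g13 g14 g23 g24 g34) (cl_lt k01 k03 k02 k04 k13 k12 k14 k23 k34 k24)
      (cl_lt k01 k02 k03 k04 k12 k13 k14 k23 k24 k34)
      (hψ.inv2 _ _ _ _ _ _ _ _ _ _ _ _ _ _ _ _ _ _ _ _ _ _ _ _ _ h0 h1 h2 h3 h4 g01 g02 g03 g04 g12 g13 g14 g23
        g24 g34 k01 k02 k03 k04 k12 k13 k14 k23 k24 k34) ?_
    rw [oneM_cm h0 h1 h3 h2 h4, oneM_cm h0 h1 h2 h3 h4]
    ring
  · intro b0 b1 b2 b3 b4 e01 e02 e03 e04 e12 e13 e14 e23 e24 e34 f01 f02 f03 f04 f12 f13 f14 f23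
      f24 f34 h0 h1 h2 h3 h4 g01 g02 g03 g04 g12 g13 g14 g23 g24 g34 k01 k02 k03 k04 k12 k13 k14
      k23 k24 k34
    refine psiS_congr (cm_lt h0 h1 h2 h4 h3) (cm_lt h0 h1 h2 h3 h4) (cl_lt g01 g02 g04 g03 g12 g14 g13 g24 g23 g34)
      (cl_lt g01 g02 g03 g04 g12 g13 g14 g23 g24 g34) (cl_lt k01 k02 k04 k03 k12 k14 k13 k24 k23 k34)
      (cl_lt k01 k02 k03 k04 k12 k13 k14 k23 k24 k34)
      (hψ.inv3 _ _ _ _ _ _ _ _ _ _ _ _ _ _ _ _ _ _ _ _ _ _ _ _ _ h0 h1 h2 h3 h4 g01 g02 g03 g04 g12 g13 g14 g23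
        g24 g34 k01 k02 k03 k04 k12 k13 k14 k23 k24 k34) ?_
    rw [oneM_cm h0 h1 h2 h4 h3, oneM_cm h0 h1 h2 h3 h4]
    ring
  · intro b0 b1 b2 b3 b4 h0 h1 h2 h3 h4 V _ l hl
    have h := psdS hψ (fun m hm l hl l' hl' => psiS_eq hm hl hl') h0 h1 h2 h3 h4 V l hl
    have h5 := sl_nonneg (b0 + b1 + b2 + b3 + b4)
    have h6 : (0 : ℤ) ≤ (sl (b0 + b1 + b2 + b3 + b4) : ℤ) * (Fintype.card V : ℤ) ^ 2 := by positivity
    linarith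

end Pool.Agent.N465.L2
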