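import Pool.Agent.N465.L2.AVG
import Pool.Agent.N465.L2q.CRTq

/-! Averaging, with the slack. -/

set_option autoImplicit false
set_option maxRecDepth 100000

open Finset

namespace Pool.Agent.N465.L2

open AVG in
theorem avgS (hψ : Cert psi') {V : Type} [Fintype V] [DecidableEq V] {E : V → V → V → V → ℕ} (hE : Sy4 E)
    (hpos : ∀ x : Fin 7 → V, 0 ≤ L7f E psiS x) :
    (130 : ℤ) * p5 E 1 ≤ 189 * p5 E 2 + 446 * p5 E 3 + 637 * p5 E 4 + 510 * p5 E 5 := by
  have h1 : 0 ≤ ∑ x : Fin 7 → V, L7f E psiS x := sum_nonneg fun x _ => hpos x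
  rw [sum21, conv7] at h1
  have h2 : ∑ a : V, ∑ b : V, ∑ c : V, ∑ d : V, ∑ e : V, ∑ f : V, ∑ g : V,
      Psi E psiS a b c d e f g ≤ ∑ a : V, ∑ b : V, ∑ c : V, ∑ d : V, ∑ e : V,
        (2000000 * ck (kC5 E a b c d e) - (sl (kC5 E a b c d e) : ℤ)) * (Fintype.card V : ℤ) ^ 2 := by
    refine sum_le_sum fun a _ => sum_le_sum fun b _ => sum_le_sum fun c _ =>
      sum_le_sum fun d _ => sum_le_sum fun e _ => ?_
    exact psdS hψ (fun m hm l hl l' hl' => psiS_eq hm hl hl')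
      (bit hE b c d e) (bit hE a c d e) (bit hE a b d e) (bit hE a b c e) (bit hE a b c d)
      V (lC E a b c d e) (lC_lt hE a b c d e)
  have h3 : ∑ a : V, ∑ b : V, ∑ c : V, ∑ d : V, ∑ e : V,
        (2000000 * ck (kC5 E a b c d e) - (sl (kC5 E a b c d e) : ℤ)) * (Fintype.card V : ℤ) ^ 2 =
      (Fintype.card V : ℤ) ^ 2 *
        ∑ t : V × V × V × V × V, (2000000 * ck (kC5 E t.1 t.2.1 t.2.2.1 t.2.2.2.1 t.2.2.2.2)
          - (sl (kC5 E t.1 t.2.1 t.2.2.1 t.2.2.2.1 t.2.2.2.2) : ℤ)) := by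
    simp only [Fintype.sum_prod_type, mul_sum]
    refine sum_congr rfl fun a _ => sum_congr rfl fun b _ => sum_congr rfl fun c _ =>
      sum_congr rfl fun d _ => sum_congr rfl fun e _ => ?_
    ring
  have h4 : ∑ t : V × V × V × V × V, (2000000 * ck (kC5 E t.1 t.2.1 t.2.2.1 t.2.2.2.1 t.2.2.2.2)
          - (sl (kC5 E t.1 t.2.1 t.2.2.1 t.2.2.2.1 t.2.2.2.2) : ℤ)) =
      ∑ k ∈ range 6, (p5 E k : ℤ) * (2000000 * ck k - (sl k : ℤ)) := by
    have h5 : ∀ t ∈ (univ : Finset (V × V × V × V × V)),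
        kC5 E t.1 t.2.1 t.2.2.1 t.2.2.2.1 t.2.2.2.2 ∈ range 6 := by
      rintro ⟨a, b, c, d, e⟩ _
      rw [mem_range]
      unfold kC5
      have h1 := bit hE b c d e
      have h2 := bit hE a c d e
      have h3 := bit hE a b d e
      have h4 := bit hE a b c e
      have h5 := bit hE a b c d
      simp only
      omega
    rw [← sum_fiberwise_of_maps_to h5]
    refine sum_congr rfl fun k _ => ?_
    have h6 : ∀ t ∈ (univ : Finset (V × V × V × V × V)).filter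
        (fun t => kC5 E t.1 t.2.1 t.2.2.1 t.2.2.2.1 t.2.2.2.2 = k),
        (2000000 * ck (kC5 E t.1 t.2.1 t.2.2.1 t.2.2.2.1 t.2.2.2.2)
          - (sl (kC5 E t.1 t.2.1 t.2.2.1 t.2.2.2.1 t.2.2.2.2) : ℤ)) = 2000000 * ck k - (sl k : ℤ) := by
      intro t ht
      rw [(mem_filter.1 ht).2]
    rw [sum_congr rfl h6, sum_const, nsmul_eq_mul]
    rfl
  rw [h3, h4] at h2
  simp only [sum_range_succ, range_zero, sum_empty, ck, sl] at h2
  rcases Nat.eq_zero_or_pos (Fintype.card V) with h0 | h0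
  · have hV : IsEmpty V := Fintype.card_eq_zero_iff.1 h0
    have h7 : ∀ k, p5 E k = 0 := by
      intro k
      unfold p5
      rw [card_eq_zero, filter_eq_empty_iff]
      intro t _
      exact (hV.false t.1).elim
    simp [h7]
  · have hc : 0 < 1000000 * (Fintype.card V : ℤ) ^ 2 := by positivity
    have h8 : 0 ≤ 1000000 * (Fintype.card V : ℤ) ^ 2 *
        ((p5 E 1 : ℤ) * -130 + (p5 E 2 : ℤ) * 189 + (p5 E 3 : ℤ) * 446 +
          (p5 E 4 : ℤ) * 637 + (p5 E 5 : ℤ) * 510) := by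
      have h10 : (0 : ℤ) ≤ ∑ a : V, ∑ b : V, ∑ c : V, ∑ d : V, ∑ e : V, ∑ f : V, ∑ g : V,
          Psi E psiS a b c d e f g := by linarith
      refine le_trans (le_trans h10 h2) (le_of_eq ?_)
      push_cast
      ring
    have h9 := nonneg_of_mul_nonneg_right h8 hc
    linarith

end Pool.Agent.N465.L2
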