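import Pool.Agent.N465.L2.Def
import Pool.Agent.N465.L2q.TbZq

/-! Check functions, version with slack. -/

set_option autoImplicit false
set_option maxRecDepth 100000

namespace Pool.Agent.N465.L2

def ccTq : ℕ := 31040152754115754343277555568093387928168181873520389523383852695182031966509185166229301260924980943130468917387796902664483676454204205840112061649150685661037023975008660450221277092159089428918096186403722491968971458934493596424373175942666604024299164306149010088667129123725422081831967454503945908411450623977182140820003871278211170041856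

/-- the constant for the root code `m`, plus `2^35` -/
def ccq (m : ℕ) : ℕ := Nat.mod (Nat.shiftRight ccTq (Nat.mul 36 m)) 68719476736

def sZq (m h : ℕ) : ℕ := (cnd (Nat.ble m 15) (cnd (Nat.ble m 7) (cnd (Nat.ble m 3) (cnd (Nat.ble m 1) (cnd (Nat.ble m 0) (zTq0 h) (zTq1 h)) (cnd (Nat.ble m 2) (zTq2 h) (zTq3 h))) (cnd (Nat.ble m 5) (cnd (Nat.ble m 4) (zTq4 h) (zTq5 h)) (cnd (Nat.ble m 6) (zTq6 h) (zTq7 h)))) (cnd (Nat.ble m 11) (cnd (Nat.ble m 9) (cnd (Nat.ble m 8) (zTq8 h) (zTq9 h)) (cnd (Nat.ble m 10) (zTq10 h) (zTq11 h))) (cnd (Nat.ble m 13) (cnd (Nat.ble m 12) (zTq12 h) (zTq13 h)) (cnd (Nat.ble m 14) (zTq14 h) (zTq15 h))))) (cnd (Nat.ble m 23) (cnd (Nat.ble m 19) (cnd (Nat.ble m 17) (cnd (Nat.ble m 16) (zTq16 h) (zTq17 h)) (cnd (Nat.ble m 18) (zTq18 h) (zTq19 h))) (cnd (Nat.ble m 21) (cnd (Nat.ble m 20) (zTq20 h) (zTq21 h)) (cnd (Nat.ble m 22) (zTq22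 h) (zTq23 h)))) (cnd (Nat.ble m 27) (cnd (Nat.ble m 25) (cnd (Nat.ble m 24) (zTq24 h) (zTq25 h)) (cnd (Nat.ble m 26) (zTq26 h) (zTq27 h))) (cnd (Nat.ble m 29) (cnd (Nat.ble m 28) (zTq28 h) (zTq29 h)) (cnd (Nat.ble m 30) (zTq30 h) (zTq31 h))))))

/-- entry of the table of the diagonal sums -/
def ztq (mi l : ℕ) : ℕ := g40 (sZq mi (Nat.div l 64)) (Nat.mod l 64)

/-- lower bound for twice the share of a vertex, plus `2^39` -/
def gvq (mi l6 dl l : ℕ) : ℕ :=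
  cnd (okl mi l) (cnd (Nat.ble (pc l) dl)
    (Nat.sub (Nat.add (ztq mi l) (Nat.mul 2 (ccq mi)))
      (Nat.mul 2 (dt (Nat.add mi (Nat.mul 32 l6)) (Nat.add mi (Nat.mul 32 l))))) 8796093022208) 8796093022208

/-- the table of `gvq` -/
def gTq (mi l6 dl : ℕ) : ℕ := pk 1024 (gvq mi l6 dl)

/-- the term of a pair, plus `2^36` -/
def tmq (c d : ℕ) : ℕ := Nat.sub (Nat.add (ccq (Nat.mod c 32)) 68719476736) (dt c d)

def tm6q (mi l6 l : ℕ) : ℕ := tmq (Nat.add mi (Nat.mul 32 l6)) (Nat.add mi (Nat.mul 32 l))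

/-- the exact sum of the 21 terms, each plus `2^36` -/
def fullq (m0 m1 m2 m3 m4 m5 a0 a1 a2 a3 a4 a5 l0 l1 l2 l3 l4 l5 : ℕ) : ℕ :=
  (Nat.add (tm6q m0 a0 l0)
    (Nat.add (tm6q m1 a1 l1)
    (Nat.add (tm6q m2 a2 l2)
    (Nat.add (tm6q m3 a3 l3)
    (Nat.add (tm6q m4 a4 l4)
    (Nat.add (tm6q m5 a5 l5)
    (Nat.add (st (fun c => st (fun d => tmq c d) (Nat.add (q0 l1) (cs m1 0))) (Nat.add (q0 l0) (cs m0 0)))
    (Nat.add (st (fun c => st (fun d => tmq c d) (Nat.add (q0 l2) (cs m2 0))) (Nat.add (q1 l0) (cs m0 1)))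
    (Nat.add (st (fun c => st (fun d => tmq c d) (Nat.add (q0 l3) (cs m3 0))) (Nat.add (q2 l0) (cs m0 2)))
    (Nat.add (st (fun c => st (fun d => tmq c d) (Nat.add (q0 l4) (cs m4 0))) (Nat.add (q3 l0) (cs m0 3)))
    (Nat.add (st (fun c => st (fun d => tmq c d) (Nat.add (q0 l5) (cs m5 0))) (Nat.add (q4 l0) (cs m0 4)))
    (Nat.add (st (fun c => st (fun d => tmq c d) (Nat.add (q1 l2) (cs m2 1))) (Nat.add (q1 l1) (cs m1 1)))
    (Nat.add (st (fun c => st (fun d => tmq c d) (Nat.add (q1 l3) (cs m3 1))) (Nat.add (q2 l1) (cs m1 2)))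
    (Nat.add (st (fun c => st (fun d => tmq c d) (Nat.add (q1 l4) (cs m4 1))) (Nat.add (q3 l1) (cs m1 3)))
    (Nat.add (st (fun c => st (fun d => tmq c d) (Nat.add (q1 l5) (cs m5 1))) (Nat.add (q4 l1) (cs m1 4)))
    (Nat.add (st (fun c => st (fun d => tmq c d) (Nat.add (q2 l3) (cs m3 2))) (Nat.add (q2 l2) (cs m2 2)))
    (Nat.add (st (fun c => st (fun d => tmq c d) (Nat.add (q2 l4) (cs m4 2))) (Nat.add (q3 l2) (cs m2 3)))
    (Nat.add (st (fun c => st (fun d => tmq c d) (Nat.add (q2 l5) (cs m5 2))) (Nat.add (q4 l2) (cs m2 4)))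
    (Nat.add (st (fun c => st (fun d => tmq c d) (Nat.add (q3 l4) (cs m4 3))) (Nat.add (q3 l3) (cs m3 3)))
    (Nat.add (st (fun c => st (fun d => tmq c d) (Nat.add (q3 l5) (cs m5 3))) (Nat.add (q4 l3) (cs m3 4)))
    (st (fun c => st (fun d => tmq c d) (Nat.add (q4 l5) (cs m5 4))) (Nat.add (q4 l4) (cs m4 4)))))))))))))))))))))))

def leafBq (m0 m1 m2 m3 m4 m5 a0 a1 a2 a3 a4 a5 l0 l1 S : ℕ) : Bool :=
  Nat.ble 1443109011456 (st (fun l2 => st (fun l3 => st (fun l4 => st (fun l5 =>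
    fullq m0 m1 m2 m3 m4 m5 a0 a1 a2 a3 a4 a5 l0 l1 l2 l3 l4 l5) (fd 30 S)) (fd 20 S)) (fd 10 S)) (fd 0 S))

/-- last level; `g` is the sum for the vertices 0 and 1 -/
def lv3q (T2 T3 T4 T5 m0 m1 m2 m3 m4 m5 a0 a1 a2 a3 a4 a5 l0 l1 g S : ℕ) : Bool :=
  cnd (Nat.ble 3298534883328 (Nat.add g (s4 T2 T3 T4 T5 S))) true (leafBq m0 m1 m2 m3 m4 m5 a0 a1 a2 a3 a4 a5 l0 l1 S)

def lv2q (T1 T2 T3 T4 T5 N2 N3 N4 N5 m0 m1 m2 m3 m4 m5 a0 a1 a2 a3 a4 a5 l0 b1 g0 P w1 : ℕ) : Bool :=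
  st (fun l1 => st (fun g => st (fun S =>
    cnd (Nat.ble 3298534883328 (Nat.add g (s4 N2 N3 N4 N5 S))) true
      (al 8 (fun w2 => st (fun S2 => cnd (lv3q T2 T3 T4 T5 m0 m1 m2 m3 m4 m5 a0 a1 a2 a3 a4 a5 l0 l1 g S2)
        (st (lv3q T2 T3 T4 T5 m0 m1 m2 m3 m4 m5 a0 a1 a2 a3 a4 a5 l0 l1 g) (Nat.add S2 pT3)) false) (Nat.add S (p2 w2)))))
    (Nat.add P (p1 w1))) (Nat.add g0 (g44 T1 l1))) (Nat.add b1 (Nat.mul 16 w1))

def lv1q (T0 T1 T2 T3 T4 T5 N2 N3 N4 N5 O1 O2 O3 O4 O5 m0 m1 m2 m3 m4 m5 a0 a1 a2 a3 a4 a5 w0 : ℕ) : Bool :=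
  st (fun g0 => st (fun P => st (fun b1 =>
    cnd (Nat.ble 3298534883328 (Nat.add g0 (Nat.add (g44 O1 b1) (s4 O2 O3 O4 O5 P)))) true
      (al 64 (lv2q T1 T2 T3 T4 T5 N2 N3 N4 N5 m0 m1 m2 m3 m4 m5 a0 a1 a2 a3 a4 a5 w0 b1 g0 P)))
    (Nat.mod w0 16)) (p0 w0)) (g44 T0 w0)

/-- the loop over the codes `lo ≤ w0 < lo + n` -/
def chTq (T0 T1 T2 T3 T4 T5 m0 m1 m2 m3 m4 m5 a0 a1 a2 a3 a4 a5 lo n : ℕ) : Bool :=
  st (fun N1 => st (fun N2 => st (fun N3 => st (fun N4 => st (fun N5 => st (fun O1 => st (fun O2 => st (fun O3 => st (fun O4 => st (fun O5 =>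
    al n (fun k => st (lv1q T0 T1 T2 T3 T4 T5 N2 N3 N4 N5 O1 O2 O3 O4 O5 m0 m1 m2 m3 m4 m5 a0 a1 a2 a3 a4 a5) (Nat.add lo k)))
    (red4 N5)) (red4 N4)) (red4 N3)) (red4 N2)) (red4 N1)) (red7 T5)) (red7 T4)) (red7 T3)) (red7 T2)) (red7 T1)

def gKq (e m a : ℕ) : ℕ := st (fun dl => gTq m a dl) (Nat.sub e (oneM m))

def chCq (e m0 m1 m2 m3 m4 m5 a0 a1 a2 a3 a4 a5 lo n : ℕ) : Bool :=
  st (fun T0 => st (fun T1 => st (fun T2 => st (fun T3 => st (fun T4 => st (fun T5 =>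
    chTq T0 T1 T2 T3 T4 T5 m0 m1 m2 m3 m4 m5 a0 a1 a2 a3 a4 a5 lo n)
    (gKq e m5 a5)) (gKq e m4 a4)) (gKq e m3 a3)) (gKq e m2 a2)) (gKq e m1 a1)) (gKq e m0 a0)

/-- the check for the base structure `K` and the codes `lo ≤ w0 < lo + n` -/
def chkq (K lo n : ℕ) : Bool :=
  st (fun e => st (fun m0 => st (fun m1 => st (fun m2 => st (fun m3 => st (fun m4 => st (fun m5 =>
  st (fun a0 => st (fun a1 => st (fun a2 => st (fun a3 => st (fun a4 => st (fun a5 =>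
    chCq e m0 m1 m2 m3 m4 m5 a0 a1 a2 a3 a4 a5 lo n)
    (lk5 K)) (lk4 K)) (lk3 K)) (lk2 K)) (lk1 K)) (lk0 K))
    (mk5 K)) (mk4 K)) (mk3 K)) (mk2 K)) (mk1 K)) (mk0 K)) (ones K)

end Pool.Agent.N465.L2
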