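import Pool.Agent.N465.L2.Lv
import Pool.Agent.N465.L2q.Defq

/-! Version with slack for the five-sets with an odd number of edges. -/

set_option autoImplicit false
set_option maxRecDepth 100000

namespace Pool.Agent.N465.L2

theorem lv_soundq (T0 T1 T2 T3 T4 T5 m0 m1 m2 m3 m4 m5 a0 a1 a2 a3 a4 a5 w0 w1 w2 w3 l1 l2 l3 l4 l5 : ℕ)
    (h : lv1q T0 T1 T2 T3 T4 T5 (red7 T2) (red7 T3) (red7 T4) (red7 T5) (red4 (red7 T1)) (red4 (red7 T2))
      (red4 (red7 T3)) (red4 (red7 T4)) (red4 (red7 T5)) m0 m1 m2 m3 m4 m5 a0 a1 a2 a3 a4 a5 w0 = true)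
    (hw1 : w1 < 64) (hw2 : w2 < 8) (hw3 : w3 < 2) (hl1 : l1 = w0 % 16 + 16 * w1)
    (b2 : l2 < 1024) (b3 : l3 < 1024) (b4 : l4 < 1024) (b5 : l5 < 1024)
    (f2 : fd 0 (p0 w0) = l2 % 16) (f3 : fd 10 (p0 w0) = l3 % 16) (f4 : fd 20 (p0 w0) = l4 % 16)
    (f5 : fd 30 (p0 w0) = l5 % 16)
    (g2 : fd 0 (p0 w0 + p1 w1) = l2 % 128) (g3 : fd 10 (p0 w0 + p1 w1) = l3 % 128)
    (g4 : fd 20 (p0 w0 + p1 w1) = l4 % 128) (g5 : fd 30 (p0 w0 + p1 w1) = l5 % 128)
    (k2 : fd 0 (p0 w0 + p1 w1 + p2 w2 + w3 * pT3) = l2) (k3 : fd 10 (p0 w0 + p1 w1 + p2 w2 + w3 * pT3) = l3)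
    (k4 : fd 20 (p0 w0 + p1 w1 + p2 w2 + w3 * pT3) = l4) (k5 : fd 30 (p0 w0 + p1 w1 + p2 w2 + w3 * pT3) = l5) :
    3298534883328 ≤ g44 T0 w0 + g44 T1 l1 + g44 T2 l2 + g44 T3 l3 + g44 T4 l4 + g44 T5 l5 ∨
      1443109011456 ≤ fullq m0 m1 m2 m3 m4 m5 a0 a1 a2 a3 a4 a5 w0 l1 l2 l3 l4 l5 := by
  have hb1 : l1 < 1024 := by omega
  have hm1 : l1 % 16 = w0 % 16 := by omega
  unfold lv1q at h
  simp only [st_eq] at h
  rcases cnd_or h with h | h
  · left
    have h' := Nat.le_of_ble_eq_true h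
    simp only [Nat.add_eq, s4, f2, f3, f4, f5] at h'
    have e1 := red47_le T1 l1 hb1
    rw [hm1] at e1
    have e2 := red47_le T2 l2 b2
    have e3 := red47_le T3 l3 b3
    have e4 := red47_le T4 l4 b4
    have e5 := red47_le T5 l5 b5
    have h'' : 3298534883328 ≤ g44 T0 w0 + (g44 (red4 (red7 T1)) (w0 % 16) + (g44 (red4 (red7 T2)) (l2 % 16) +
      (g44 (red4 (red7 T3)) (l3 % 16) + (g44 (red4 (red7 T4)) (l4 % 16) + g44 (red4 (red7 T5)) (l5 % 16))))) := h'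
    omega
  · have h2 := al_true h w1 hw1
    unfold lv2q at h2
    simp only [st_eq] at h2
    have hl1' : Nat.add (Nat.mod w0 16) (Nat.mul 16 w1) = l1 := hl1.symm
    rw [hl1'] at h2
    rcases cnd_or h2 with h2 | h2
    · left
      have h' := Nat.le_of_ble_eq_true h2
      simp only [Nat.add_eq, s4, g2, g3, g4, g5] at h'
      have e2 := red7_le T2 l2 b2
      have e3 := red7_le T3 l3 b3
      have e4 := red7_le T4 l4 b4
      have e5 := red7_le T5 l5 b5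
      omega
    · have h3 := al_true h2 w2 hw2
      beta_reduce at h3
      obtain ⟨h4, h5⟩ := cnd_false h3
      have key : lv3q T2 T3 T4 T5 m0 m1 m2 m3 m4 m5 a0 a1 a2 a3 a4 a5 w0 l1 (g44 T0 w0 + g44 T1 l1)
          (p0 w0 + p1 w1 + p2 w2 + w3 * pT3) = true := by
        interval_cases w3
        · rw [zero_mul, add_zero]; exact h4
        · rw [one_mul]; exact h5
      unfold lv3q at key
      rcases cnd_or key with key | key
      · left
        have h' := Nat.le_of_ble_eq_true key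
        simp only [Nat.add_eq, s4, k2, k3, k4, k5] at h'
        omega
      · right
        unfold leafBq at key
        simp only [st_eq, k2, k3, k4, k5] at key
        exact Nat.le_of_ble_eq_true key

/-- one step of the check -/
def Lv1q (K w : ℕ) : Bool :=
  lv1q (gKq (ones K) (mk0 K) (lk0 K)) (gKq (ones K) (mk1 K) (lk1 K)) (gKq (ones K) (mk2 K) (lk2 K))
    (gKq (ones K) (mk3 K) (lk3 K)) (gKq (ones K) (mk4 K) (lk4 K)) (gKq (ones K) (mk5 K) (lk5 K))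
    (red7 (gKq (ones K) (mk2 K) (lk2 K))) (red7 (gKq (ones K) (mk3 K) (lk3 K)))
    (red7 (gKq (ones K) (mk4 K) (lk4 K))) (red7 (gKq (ones K) (mk5 K) (lk5 K)))
    (red4 (red7 (gKq (ones K) (mk1 K) (lk1 K)))) (red4 (red7 (gKq (ones K) (mk2 K) (lk2 K))))
    (red4 (red7 (gKq (ones K) (mk3 K) (lk3 K)))) (red4 (red7 (gKq (ones K) (mk4 K) (lk4 K))))
    (red4 (red7 (gKq (ones K) (mk5 K) (lk5 K))))
    (mk0 K) (mk1 K) (mk2 K) (mk3 K) (mk4 K) (mk5 K) (lk0 K) (lk1 K) (lk2 K) (lk3 K) (lk4 K) (lk5 K) w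

theorem chk_eqq (K lo n : ℕ) : chkq K lo n = al n (fun k => Lv1q K (Nat.add lo k)) := by
  unfold chkq
  simp only [st_eq]
  unfold chCq
  simp only [st_eq]
  unfold chTq
  simp only [st_eq]
  rfl

theorem chk_lvq {K lo n : ℕ} (h : chkq K lo n = true) : ∀ w, lo ≤ w → w < lo + n → Lv1q K w = true := by
  intro w h1 h2
  rw [chk_eqq] at h
  have h3 := al_true h (w - lo) (by omega)
  have e : Nat.add lo (w - lo) = w := by
    show lo + (w - lo) = w
    omega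
  simp only [e] at h3
  exact h3

theorem gK_leq (e m a l : ℕ) (hl : l < 1024) : g44 (gKq e m a) l ≤ gvq m a (e - oneM m) l := by
  unfold gKq gTq
  rw [st_eq, g44_pk _ _ l hl]
  exact Nat.mod_le _ _



end Pool.Agent.N465.L2
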