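import Pool.Agent.N465.L2.Leaf0
import Pool.Agent.N465.L2q.Bitsq
import Pool.Agent.N465.L2q.Lvq

/-! Version with slack for the five-sets with an odd number of edges. -/

set_option autoImplicit false
set_option linter.unusedVariables false
set_option maxRecDepth 100000

open Finset

namespace Pool.Agent.N465.L2



theorem psi_eqq (hD : Goal_DOT) {m l l' : ℕ} (hm : m < 32) (hl : l < 1024) (hl' : l' < 1024) :
    psiq m l l' = (ccq m : ℤ) - (34359738368 + ∑ j ∈ range 24, (wt m j : ℤ) * av m l j * av m l' j) := by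
  unfold psiq
  rw [hD m hm l hl l' hl']

theorem psi_symq (hD : Goal_DOT) {m l l' : ℕ} (hm : m < 32) (hl : l < 1024) (hl' : l' < 1024) :
    psiq m l l' = psiq m l' l := by
  rw [psi_eqq hD hm hl hl', psi_eqq hD hm hl' hl]
  have h : ∑ j ∈ range 24, (wt m j : ℤ) * av m l j * av m l' j = ∑ j ∈ range 24, (wt m j : ℤ) * av m l' j * av m l j :=
    Finset.sum_congr rfl (fun j _ => by ring)
  rw [h]

theorem amgmq (hD : Goal_DOT) {m l l' : ℕ} (hm : m < 32) (hl : l < 1024) (hl' : l' < 1024) :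
    psiq m l l + psiq m l' l' ≤ 2 * psiq m l l' := by
  rw [psi_eqq hD hm hl hl', psi_eqq hD hm hl hl, psi_eqq hD hm hl' hl']
  have h : 2 * ∑ j ∈ range 24, (wt m j : ℤ) * av m l j * av m l' j ≤
      ∑ j ∈ range 24, (wt m j : ℤ) * av m l j * av m l j + ∑ j ∈ range 24, (wt m j : ℤ) * av m l' j * av m l' j := by
    rw [Finset.mul_sum, ← Finset.sum_add_distrib]
    refine Finset.sum_le_sum fun j _ => ?_
    have h1 : (0 : ℤ) ≤ (wt m j : ℤ) * (av m l j - av m l' j) ^ 2 :=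
      mul_nonneg (Int.natCast_nonneg _) (sq_nonneg _)
    nlinarith [h1]
  linarith

/-- the five diagonal terms of a vertex -/
def S5q (b0 b1 b2 b3 b4 e01 e02 e03 e04 e12 e13 e14 e23 e24 e34 : ℕ) : ℤ :=
  psiq (cm e01 e02 e03 e04 b0) (cl e12 e13 e14 b1 e23 e24 b2 e34 b3 b4) (cl e12 e13 e14 b1 e23 e24 b2 e34 b3 b4) +
  psiq (cm e01 e12 e13 e14 b1) (cl e02 e03 e04 b0 e23 e24 b2 e34 b3 b4) (cl e02 e03 e04 b0 e23 e24 b2 e34 b3 b4) +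
  psiq (cm e02 e12 e23 e24 b2) (cl e01 e03 e04 b0 e13 e14 b1 e34 b3 b4) (cl e01 e03 e04 b0 e13 e14 b1 e34 b3 b4) +
  psiq (cm e03 e13 e23 e34 b3) (cl e01 e02 e04 b0 e12 e14 b1 e24 b2 b4) (cl e01 e02 e04 b0 e12 e14 b1 e24 b2 b4) +
  psiq (cm e04 e14 e24 e34 b4) (cl e01 e02 e03 b0 e12 e13 b1 e23 b2 b3) (cl e01 e02 e03 b0 e12 e13 b1 e23 b2 b3)

theorem zt_psiq {b0 b1 b2 b3 b4 e01 e02 e03 e04 e12 e13 e14 e23 e24 e34 : ℕ} (hb0 : b0 < 2) (hb1 : b1 < 2) (hb2 : b2 < 2) (hb3 : b3 < 2) (hb4 : b4 < 2) (he01 : e01 < 2) (he02 : e02 < 2) (he03 : e03 < 2) (he04 : e04 < 2) (he12 : e12 < 2) (he13 : e13 < 2) (he14 : e14 < 2) (he23 : e23 < 2) (he24 : e24 < 2) (he34 : e34 < 2) :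
    274877906944 ≤ ztq (cm b0 b1 b2 b3 b4) (cl e01 e02 e03 e04 e12 e13 e14 e23 e24 e34) ∧
    (ztq (cm b0 b1 b2 b3 b4) (cl e01 e02 e03 e04 e12 e13 e14 e23 e24 e34) : ℤ) = 549755813888 + S5q b0 b1 b2 b3 b4 e01 e02 e03 e04 e12 e13 e14 e23 e24 e34 := by
  obtain ⟨h1, h2⟩ := zt_specq hb0 hb1 hb2 hb3 hb4 he01 he02 he03 he04 he12 he13 he14 he23 he24 he34
  refine ⟨h1, ?_⟩
  rw [h2]
  unfold Q0 Q1 Q2 Q3 Q4 S5q
  rw [dg0_eqq (cm_lt he01 he02 he03 he04 hb0)]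
  rw [dg0_eqq (cm_lt he01 he12 he13 he14 hb1)]
  rw [dg0_eqq (cm_lt he02 he12 he23 he24 hb2)]
  rw [dg0_eqq (cm_lt he03 he13 he23 he34 hb3)]
  rw [dg0_eqq (cm_lt he04 he14 he24 he34 hb4)]

theorem gv_bitsq {b0 b1 b2 b3 b4 e01 e02 e03 e04 e12 e13 e14 e23 e24 e34 : ℕ} (a dl : ℕ) (hb0 : b0 < 2) (hb1 : b1 < 2) (hb2 : b2 < 2) (hb3 : b3 < 2) (hb4 : b4 < 2) (he01 : e01 < 2) (he02 : e02 < 2) (he03 : e03 < 2) (he04 : e04 < 2) (he12 : e12 < 2) (he13 : e13 < 2) (he14 : e14 < 2) (he23 : e23 < 2) (he24 : e24 < 2) (he34 : e34 < 2)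
    (c0 : 1 ≤ b0 + (e01 + e02 + e03 + e04))
    (c1 : 1 ≤ b1 + (e01 + e12 + e13 + e14))
    (c2 : 1 ≤ b2 + (e02 + e12 + e23 + e24))
    (c3 : 1 ≤ b3 + (e03 + e13 + e23 + e34))
    (c4 : 1 ≤ b4 + (e04 + e14 + e24 + e34))
    (hd : e01 + e02 + e03 + e04 + e12 + e13 + e14 + e23 + e24 + e34 ≤ dl) :
    (gvq (cm b0 b1 b2 b3 b4) a dl (cl e01 e02 e03 e04 e12 e13 e14 e23 e24 e34) : ℤ) = 549755813888 + S5q b0 b1 b2 b3 b4 e01 e02 e03 e04 e12 e13 e14 e23 e24 e34 + 2 * psiq (cm b0 b1 b2 b3 b4) a (cl e01 e02 e03 e04 e12 e13 e14 e23 e24 e34) := by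
  obtain ⟨h1, h2⟩ := zt_psiq hb0 hb1 hb2 hb3 hb4 he01 he02 he03 he04 he12 he13 he14 he23 he24 he34
  have h3 := okl_spec hb0 hb1 hb2 hb3 hb4 he01 he02 he03 he04 he12 he13 he14 he23 he24 he34 c0 c1 c2 c3 c4
  have h4 : pc (cl e01 e02 e03 e04 e12 e13 e14 e23 e24 e34) ≤ dl := by rw [pc_cl he01 he02 he03 he04 he12 he13 he14 he23 he24 he34]; exact hd
  rw [gv_eqq h3 h4 h1, h2]


end Pool.Agent.N465.L2
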