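import Pool.Agent.N465.L2.Leaf2
import Pool.Agent.N465.L2q.Leaf1q

/-! Version with slack for the five-sets with an odd number of edges. -/

set_option autoImplicit false
set_option linter.unusedVariables false
set_option maxRecDepth 100000

open Finset

namespace Pool.Agent.N465.L2

variable {V : Type} {E : V → V → V → V → ℕ}

theorem L7_bitsq (hS : Sy4 E) (x0 x1 x2 x3 x4 x5 x6 : V) :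
    L7 E psiq x0 x1 x2 x3 x4 x5 x6 = LFq (E x2 x3 x4 x5) (E x1 x3 x4 x5) (E x1 x2 x4 x5) (E x1 x2 x3 x5) (E x1 x2 x3 x4) (E x0 x3 x4 x5) (E x0 x2 x4 x5) (E x0 x2 x3 x5) (E x0 x2 x3 x4) (E x0 x1 x4 x5) (E x0 x1 x3 x5) (E x0 x1 x3 x4) (E x0 x1 x2 x5) (E x0 x1 x2 x4) (E x0 x1 x2 x3) (E x3 x4 x5 x6) (E x2 x4 x5 x6) (E x2 x3 x5 x6) (E x2 x3 x4 x6) (E x1 x4 x5 x6) (E x1 x3 x5 x6) (E x1 x3 x4 x6) (E x1 x2 x5 x6) (E x1 x2 x4 x6) (E x1 x2 x3 x6) (E x0 x4 x5 x6) (E x0 x3 x5 x6) (E x0 x3 x4 x6) (E x0 x2 x5 x6) (E x0 x2 x4 x6) (E x0 x2 x3 x6) (E x0 x1 x5 x6) (E x0 x1 x4 x6) (E x0 x1 x3 x6) (E x0 x1 x2 x6) := by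
  unfold L7
  rw [Psi_01 psiq hS x0 x1 x2 x3 x4 x5 x6,
    Psi_02 psiq hS x0 x1 x2 x3 x4 x5 x6,
    Psi_03 psiq hS x0 x1 x2 x3 x4 x5 x6,
    Psi_04 psiq hS x0 x1 x2 x3 x4 x5 x6,
    Psi_05 psiq hS x0 x1 x2 x3 x4 x5 x6,
    Psi_06 psiq hS x0 x1 x2 x3 x4 x5 x6,
    Psi_12 psiq hS x0 x1 x2 x3 x4 x5 x6,
    Psi_13 psiq hS x0 x1 x2 x3 x4 x5 x6,
    Psi_14 psiq hS x0 x1 x2 x3 x4 x5 x6,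
    Psi_15 psiq hS x0 x1 x2 x3 x4 x5 x6,
    Psi_16 psiq hS x0 x1 x2 x3 x4 x5 x6,
    Psi_23 psiq hS x0 x1 x2 x3 x4 x5 x6,
    Psi_24 psiq hS x0 x1 x2 x3 x4 x5 x6,
    Psi_25 psiq hS x0 x1 x2 x3 x4 x5 x6,
    Psi_26 psiq hS x0 x1 x2 x3 x4 x5 x6,
    Psi_34 psiq hS x0 x1 x2 x3 x4 x5 x6,
    Psi_35 psiq hS x0 x1 x2 x3 x4 x5 x6,
    Psi_36 psiq hS x0 x1 x2 x3 x4 x5 x6,
    Psi_45 psiq hS x0 x1 x2 x3 x4 x5 x6,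
    Psi_46 psiq hS x0 x1 x2 x3 x4 x5 x6,
    Psi_56 psiq hS x0 x1 x2 x3 x4 x5 x6]
  unfold LFq
  rfl

theorem leaf_Eq (hDOT : Goal_DOT) (hR : ∀ K ∈ repsL, ∀ w < 1024, Lv1q K w = true) (hS : Sy4 E) (hC : Cov E)
    (x0 x1 x2 x3 x4 x5 x6 : V)
    (d0 : e6 E x1 x2 x3 x4 x5 x6 ≤ e6 E x0 x1 x2 x3 x4 x5)
    (d1 : e6 E x0 x2 x3 x4 x5 x6 ≤ e6 E x0 x1 x2 x3 x4 x5)
    (d2 : e6 E x0 x1 x3 x4 x5 x6 ≤ e6 E x0 x1 x2 x3 x4 x5)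
    (d3 : e6 E x0 x1 x2 x4 x5 x6 ≤ e6 E x0 x1 x2 x3 x4 x5)
    (d4 : e6 E x0 x1 x2 x3 x5 x6 ≤ e6 E x0 x1 x2 x3 x4 x5)
    (d5 : e6 E x0 x1 x2 x3 x4 x6 ≤ e6 E x0 x1 x2 x3 x4 x5)
    (hK : kC E x0 x1 x2 x3 x4 x5 ∈ repsL) : 0 ≤ L7 E psiq x0 x1 x2 x3 x4 x5 x6 := by
  obtain ⟨v0, v1, v2, v3, v4, v5, v6⟩ := e6_le_bits (E := E) x0 x1 x2 x3 x4 x5 x6
  rw [v0, v6] at d0
  rw [v1, v6] at d1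
  rw [v2, v6] at d2
  rw [v3, v6] at d3
  rw [v4, v6] at d4
  rw [v5, v6] at d5
  rw [L7_bitsq hS]
  exact leaf_bitsq hDOT
    (lt2 hS x2 x3 x4 x5) (lt2 hS x1 x3 x4 x5) (lt2 hS x1 x2 x4 x5) (lt2 hS x1 x2 x3 x5) (lt2 hS x1 x2 x3 x4) (lt2 hS x0 x3 x4 x5) (lt2 hS x0 x2 x4 x5) (lt2 hS x0 x2 x3 x5) (lt2 hS x0 x2 x3 x4) (lt2 hS x0 x1 x4 x5) (lt2 hS x0 x1 x3 x5) (lt2 hS x0 x1 x3 x4) (lt2 hS x0 x1 x2 x5) (lt2 hS x0 x1 x2 x4) (lt2 hS x0 x1 x2 x3)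
    (lt2 hS x3 x4 x5 x6) (lt2 hS x2 x4 x5 x6) (lt2 hS x2 x3 x5 x6) (lt2 hS x2 x3 x4 x6) (lt2 hS x1 x4 x5 x6) (lt2 hS x1 x3 x5 x6) (lt2 hS x1 x3 x4 x6) (lt2 hS x1 x2 x5 x6) (lt2 hS x1 x2 x4 x6) (lt2 hS x1 x2 x3 x6) (lt2 hS x0 x4 x5 x6) (lt2 hS x0 x3 x5 x6) (lt2 hS x0 x3 x4 x6) (lt2 hS x0 x2 x5 x6) (lt2 hS x0 x2 x4 x6) (lt2 hS x0 x2 x3 x6) (lt2 hS x0 x1 x5 x6) (lt2 hS x0 x1 x4 x6) (lt2 hS x0 x1 x3 x6) (lt2 hS x0 x1 x2 x6)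
    (hR _ hK)
    (cov_sw (hC x2 x3 x4 x5 x6))
    (cov_sw (hC x1 x3 x4 x5 x6))
    (cov_sw (hC x1 x2 x4 x5 x6))
    (cov_sw (hC x1 x2 x3 x5 x6))
    (cov_sw (hC x1 x2 x3 x4 x6))
    (cov_sw (hC x0 x3 x4 x5 x6))
    (cov_sw (hC x0 x2 x4 x5 x6))
    (cov_sw (hC x0 x2 x3 x5 x6))
    (cov_sw (hC x0 x2 x3 x4 x6))
    (cov_sw (hC x0 x1 x4 x5 x6))
    (cov_sw (hC x0 x1 x3 x5 x6))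
    (cov_sw (hC x0 x1 x3 x4 x6))
    (cov_sw (hC x0 x1 x2 x5 x6))
    (cov_sw (hC x0 x1 x2 x4 x6))
    (cov_sw (hC x0 x1 x2 x3 x6))
    d0 d1 d2 d3 d4 d5

theorem leaf_allq (hDOT : Goal_DOT) (hR : ∀ K ∈ repsL, ∀ w < 1024, Lv1q K w = true) (hS : Sy4 E) (hC : Cov E)
    (x : Fin 7 → V) (hM : MD E x) (hK : kC E (x 0) (x 1) (x 2) (x 3) (x 4) (x 5) ∈ repsL) : 0 ≤ L7f E psiq x := by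
  obtain ⟨d0, d1, d2, d3, d4, d5⟩ := hM
  exact leaf_Eq hDOT hR hS hC (x 0) (x 1) (x 2) (x 3) (x 4) (x 5) (x 6) d0 d1 d2 d3 d4 d5 hK



end Pool.Agent.N465.L2
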