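import Pool.Agent.N465.L2.DOT
import Pool.Agent.N465.L2.INV
import Pool.Agent.N465.L2.RED
import Pool.Agent.N465.L2q.Leaf2q
import Pool.Agent.N465.L2q.AVGq

/-! The inequality for seven vertices with slack, from the checks. -/

set_option autoImplicit false

open Finset

namespace Pool.Agent.N465.L2q

open Pool.Agent.N465.L2

section
variable {V : Type} {E : V → V → V → V → ℕ}

theorem mC_lt (hS : Sy4 E) (a b c d e : V) : mC E a b c d e < 32 := by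
  unfold mC
  exact cm_lt (lt2 hS _ _ _ _) (lt2 hS _ _ _ _) (lt2 hS _ _ _ _) (lt2 hS _ _ _ _) (lt2 hS _ _ _ _)

theorem lC_lt (hS : Sy4 E) (a b c d e x : V) : lC E a b c d e x < 1024 := by
  unfold lC
  exact cl_lt (lt2 hS _ _ _ _) (lt2 hS _ _ _ _) (lt2 hS _ _ _ _) (lt2 hS _ _ _ _) (lt2 hS _ _ _ _)
    (lt2 hS _ _ _ _) (lt2 hS _ _ _ _) (lt2 hS _ _ _ _) (lt2 hS _ _ _ _) (lt2 hS _ _ _ _)

theorem Psi_congr {ψ ψ' : ℕ → ℕ → ℕ → ℤ} (h : ∀ m < 32, ∀ l < 1024, ∀ l' < 1024, ψ m l l' = ψ' m l l') (hS : Sy4 E)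
    (a b c d e y z : V) : Psi E ψ a b c d e y z = Psi E ψ' a b c d e y z := by
  unfold Psi
  exact h _ (mC_lt hS _ _ _ _ _) _ (lC_lt hS _ _ _ _ _ _) _ (lC_lt hS _ _ _ _ _ _)

theorem L7f_congr {ψ ψ' : ℕ → ℕ → ℕ → ℤ} (h : ∀ m < 32, ∀ l < 1024, ∀ l' < 1024, ψ m l l' = ψ' m l l') (hS : Sy4 E)
    (x : Fin 7 → V) : L7f E ψ x = L7f E ψ' x := by
  unfold L7f L7
  simp only [Psi_congr h hS]

theorem L7f_psiS (hS : Sy4 E) (x : Fin 7 → V) : L7f E psiS x = L7f E psiq x :=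
  L7f_congr (fun _ hm _ hl _ hl' => psiS_q hm hl hl') hS x

theorem all_nonneg (hR : ∀ K ∈ repsL, ∀ w < 1024, Lv1q K w = true) (hS : Sy4 E) (hC : Cov E) (x : Fin 7 → V) :
    0 ≤ L7f E psiS x := by
  obtain ⟨σ, hM, hK⟩ := goal_RED V E hS hC x
  have h := leaf_allq goal_DOT hR hS hC (fun i => x (σ i)) hM hK
  rw [← L7f_psiS hS, goal_INV psiS (certS_of (goal_CRT' goal_DOT)) V E hS x σ] at h
  exact h

end

theorem ineq7 (hR : ∀ K ∈ repsL, ∀ w < 1024, Lv1q K w = true) {V : Type} [Fintype V] [DecidableEq V]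
    {E : V → V → V → V → ℕ} (hS : Sy4 E) (hC : Cov E) :
    (130 : ℤ) * p5 E 1 ≤ 189 * p5 E 2 + 446 * p5 E 3 + 637 * p5 E 4 + 510 * p5 E 5 :=
  avgS (goal_CRT' goal_DOT) hS (all_nonneg hR hS hC)

end Pool.Agent.N465.L2q
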