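import Pool.Agent.N465.L2q.Defq

/-! Kernel checks. -/

set_option autoImplicit false
set_option maxRecDepth 100000

namespace Pool.Agent.N465.L2

theorem cq_127_512 : chkq 127 512 512 = true := by decide +kernel
theorem cq_247_512 : chkq 247 512 512 = true := by decide +kernel
theorem cq_639_256 : chkq 639 256 256 = true := by decide +kernel
theorem cq_701_0 : chkq 701 0 512 = true := by decide +kernel
theorem cq_767_256 : chkq 767 256 256 = true := by decide +kernel
theorem cq_1759_0 : chkq 1759 0 256 = true := by decide +kernel
theorem cq_1788_256 : chkq 1788 256 256 = true := by decide +kernel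
theorem cq_2015_512 : chkq 2015 512 256 = true := by decide +kernel
theorem cq_4063_256 : chkq 4063 256 256 = true := by decide +kernel
theorem cq_6655_256 : chkq 6655 256 256 = true := by decide +kernel
theorem cq_7103_512 : chkq 7103 512 512 = true := by decide +kernel
theorem cq_16383_0 : chkq 16383 0 256 = true := by decide +kernel

end Pool.Agent.N465.L2
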