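import Pool.Agent.N465.L2q.Defq

/-! Kernel checks. -/

set_option autoImplicit false
set_option maxRecDepth 100000

namespace Pool.Agent.N465.L2

theorem cq_126_0 : chkq 126 0 1024 = true := by decide +kernel
theorem cq_703_0 : chkq 703 0 512 = true := by decide +kernel
theorem cq_761_0 : chkq 761 0 512 = true := by decide +kernel
theorem cq_926_512 : chkq 926 512 512 = true := by decide +kernel
theorem cq_927_512 : chkq 927 512 512 = true := by decide +kernel
theorem cq_1759_256 : chkq 1759 256 256 = true := by decide +kernel
theorem cq_1783_512 : chkq 1783 512 256 = true := by decide +kernel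
theorem cq_4061_768 : chkq 4061 768 256 = true := by decide +kernel
theorem cq_5875_512 : chkq 5875 512 512 = true := by decide +kernel
theorem cq_5905_0 : chkq 5905 0 512 = true := by decide +kernel
theorem cq_5943_512 : chkq 5943 512 512 = true := by decide +kernel
theorem cq_15871_0 : chkq 15871 0 512 = true := by decide +kernel

end Pool.Agent.N465.L2
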