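import Pool.Agent.N465.L2q.Defq

/-! Kernel checks. -/

set_option autoImplicit false
set_option maxRecDepth 100000

namespace Pool.Agent.N465.L2

theorem cq_122_0 : chkq 122 0 1024 = true := by decide +kernel
theorem cq_123_0 : chkq 123 0 1024 = true := by decide +kernel
theorem cq_766_0 : chkq 766 0 512 = true := by decide +kernel
theorem cq_923_0 : chkq 923 0 512 = true := by decide +kernel
theorem cq_958_512 : chkq 958 512 512 = true := by decide +kernel
theorem cq_1789_512 : chkq 1789 512 256 = true := by decide +kernel
theorem cq_1917_512 : chkq 1917 512 512 = true := by decide +kernel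
theorem cq_2014_512 : chkq 2014 512 512 = true := by decide +kernel
theorem cq_4095_896 : chkq 4095 896 128 = true := by decide +kernel
theorem cq_6010_0 : chkq 6010 0 512 = true := by decide +kernel
theorem cq_6654_512 : chkq 6654 512 512 = true := by decide +kernel
theorem cq_8159_0 : chkq 8159 0 512 = true := by decide +kernel

end Pool.Agent.N465.L2
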