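import Pool.Agent.N465.L2q.Defq
import Pool.Agent.N465.L2q.Cq2

/-! Kernel checks. -/

set_option autoImplicit false
set_option maxRecDepth 100000

namespace Pool.Agent.N465.L2

theorem cq_511_256 : chkq 511 256 256 = true := by decide +kernel
theorem cq_635_512 : chkq 635 512 512 = true := by decide +kernel
theorem cq_763_512 : chkq 763 512 512 = true := by decide +kernel
theorem cq_1881_0 : chkq 1881 0 512 = true := by decide +kernel
theorem cq_2015_0 : chkq 2015 0 256 = true := by decide +kernel
theorem cq_5872_256 : chkq 5872 256 256 = true := by decide +kernel
theorem cq_5887_0 : chkq 5887 0 512 = true := by decide +kernel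
theorem cq_5951_0 : chkq 5951 0 256 = true := by decide +kernel
theorem cq_5951_768 : chkq 5951 768 256 = true := by decide +kernel
theorem cq_6010_512 : chkq 6010 512 512 = true := by decide +kernel
theorem cq_7167_768 : chkq 7167 768 256 = true := by decide +kernel
theorem cq_32767_384 : chkq 32767 384 128 = true := by decide +kernel

end Pool.Agent.N465.L2
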