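import Pool.Agent.N465.L2q.Defq

/-! Kernel checks. -/

set_option autoImplicit false
set_option maxRecDepth 100000

namespace Pool.Agent.N465.L2

theorem cq_767_768 : chkq 767 768 256 = true := by decide +kernel
theorem cq_1023_512 : chkq 1023 512 256 = true := by decide +kernel
theorem cq_1751_256 : chkq 1751 256 256 = true := by decide +kernel
theorem cq_1783_0 : chkq 1783 0 256 = true := by decide +kernel
theorem cq_1783_256 : chkq 1783 256 256 = true := by decide +kernel
theorem cq_1791_0 : chkq 1791 0 256 = true := by decide +kernel
theorem cq_1883_0 : chkq 1883 0 512 = true := by decide +kernel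
theorem cq_2012_512 : chkq 2012 512 256 = true := by decide +kernel
theorem cq_5907_512 : chkq 5907 512 512 = true := by decide +kernel
theorem cq_5911_0 : chkq 5911 0 512 = true := by decide +kernel
theorem cq_8157_512 : chkq 8157 512 512 = true := by decide +kernel
theorem cq_32767_768 : chkq 32767 768 128 = true := by decide +kernel

end Pool.Agent.N465.L2
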