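import Pool.Agent.N465.L2q.Defq
import Pool.Agent.N465.L2q.Cq3

/-! Kernel checks. -/

set_option autoImplicit false
set_option maxRecDepth 100000

namespace Pool.Agent.N465.L2

theorem cq_31_0 : chkq 31 0 1024 = true := by decide +kernel
theorem cq_61_0 : chkq 61 0 1024 = true := by decide +kernel
theorem cq_671_0 : chkq 671 0 512 = true := by decide +kernel
theorem cq_767_0 : chkq 767 0 256 = true := by decide +kernel
theorem cq_921_0 : chkq 921 0 1024 = true := by decide +kernel
theorem cq_957_512 : chkq 957 512 512 = true := by decide +kernel
theorem cq_1789_0 : chkq 1789 0 256 = true := by decide +kernel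
theorem cq_1791_512 : chkq 1791 512 256 = true := by decide +kernel
theorem cq_1883_512 : chkq 1883 512 512 = true := by decide +kernel
theorem cq_5950_0 : chkq 5950 0 512 = true := by decide +kernel
theorem cq_6011_512 : chkq 6011 512 512 = true := by decide +kernel
theorem cq_6143_256 : chkq 6143 256 256 = true := by decide +kernel
theorem cq_7167_512 : chkq 7167 512 256 = true := by decide +kernel

end Pool.Agent.N465.L2
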