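import Pool.Agent.N465.L2q.Defq

/-! Kernel checks. -/

set_option autoImplicit false
set_option maxRecDepth 100000

namespace Pool.Agent.N465.L2

theorem cq_60_0 : chkq 60 0 1024 = true := by decide +kernel
theorem cq_121_0 : chkq 121 0 1024 = true := by decide +kernel
theorem cq_510_0 : chkq 510 0 512 = true := by decide +kernel
theorem cq_510_512 : chkq 510 512 512 = true := by decide +kernel
theorem cq_1781_0 : chkq 1781 0 256 = true := by decide +kernel
theorem cq_1884_512 : chkq 1884 512 512 = true := by decide +kernel
theorem cq_1887_0 : chkq 1887 0 512 = true := by decide +kernel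
theorem cq_2015_256 : chkq 2015 256 256 = true := by decide +kernel
theorem cq_2047_512 : chkq 2047 512 256 = true := by decide +kernel
theorem cq_2047_768 : chkq 2047 768 256 = true := by decide +kernel
theorem cq_4061_256 : chkq 4061 256 256 = true := by decide +kernel
theorem cq_4095_640 : chkq 4095 640 128 = true := by decide +kernel
theorem cq_5873_0 : chkq 5873 0 256 = true := by decide +kernel

end Pool.Agent.N465.L2
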