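import Pool.Agent.N465.L2q.Defq
import Pool.Agent.N465.L2q.Cq4

/-! Kernel checks. -/

set_option autoImplicit false
set_option maxRecDepth 100000

namespace Pool.Agent.N465.L2

theorem cq_255_0 : chkq 255 0 512 = true := by decide +kernel
theorem cq_639_512 : chkq 639 512 256 = true := by decide +kernel
theorem cq_639_768 : chkq 639 768 256 = true := by decide +kernel
theorem cq_656_0 : chkq 656 0 1024 = true := by decide +kernel
theorem cq_926_0 : chkq 926 0 512 = true := by decide +kernel
theorem cq_1885_512 : chkq 1885 512 512 = true := by decide +kernel
theorem cq_1915_0 : chkq 1915 0 512 = true := by decide +kernel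
theorem cq_2047_256 : chkq 2047 256 256 = true := by decide +kernel
theorem cq_4095_512 : chkq 4095 512 128 = true := by decide +kernel
theorem cq_5907_0 : chkq 5907 0 512 = true := by decide +kernel
theorem cq_6655_512 : chkq 6655 512 256 = true := by decide +kernel
theorem cq_7071_512 : chkq 7071 512 256 = true := by decide +kernel
theorem cq_7167_256 : chkq 7167 256 256 = true := by decide +kernel

end Pool.Agent.N465.L2
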