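import Pool.Agent.N465.L2q.Defq

/-! Kernel checks. -/

set_option autoImplicit false
set_option maxRecDepth 100000

namespace Pool.Agent.N465.L2

theorem cq_63_0 : chkq 63 0 1024 = true := by decide +kernel
theorem cq_127_0 : chkq 127 0 512 = true := by decide +kernel
theorem cq_694_0 : chkq 694 0 1024 = true := by decide +kernel
theorem cq_1023_0 : chkq 1023 0 256 = true := by decide +kernel
theorem cq_1780_256 : chkq 1780 256 256 = true := by decide +kernel
theorem cq_1780_768 : chkq 1780 768 256 = true := by decide +kernel
theorem cq_1781_512 : chkq 1781 512 256 = true := by decide +kernel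
theorem cq_1885_0 : chkq 1885 0 512 = true := by decide +kernel
theorem cq_4061_512 : chkq 4061 512 256 = true := by decide +kernel
theorem cq_6011_0 : chkq 6011 0 512 = true := by decide +kernel
theorem cq_7100_512 : chkq 7100 512 256 = true := by decide +kernel
theorem cq_16383_768 : chkq 16383 768 256 = true := by decide +kernel

end Pool.Agent.N465.L2
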