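import Pool.Agent.N465.L2q.Defq
import Pool.Agent.N465.L2q.Cq5

/-! Kernel checks. -/

set_option autoImplicit false
set_option maxRecDepth 100000

namespace Pool.Agent.N465.L2

theorem cq_254_0 : chkq 254 0 512 = true := by decide +kernel
theorem cq_663_0 : chkq 663 0 1024 = true := by decide +kernel
theorem cq_692_0 : chkq 692 0 1024 = true := by decide +kernel
theorem cq_766_512 : chkq 766 512 512 = true := by decide +kernel
theorem cq_923_512 : chkq 923 512 512 = true := by decide +kernel
theorem cq_956_0 : chkq 956 0 512 = true := by decide +kernel
theorem cq_1022_512 : chkq 1022 512 512 = true := by decide +kernel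
theorem cq_4095_0 : chkq 4095 0 128 = true := by decide +kernel
theorem cq_5873_512 : chkq 5873 512 256 = true := by decide +kernel
theorem cq_5887_512 : chkq 5887 512 512 = true := by decide +kernel
theorem cq_5948_512 : chkq 5948 512 512 = true := by decide +kernel
theorem cq_32767_0 : chkq 32767 0 128 = true := by decide +kernel

end Pool.Agent.N465.L2
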