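import Pool.Agent.N465.L2q.Defq

/-! Kernel checks. -/

set_option autoImplicit false
set_option maxRecDepth 100000

namespace Pool.Agent.N465.L2

theorem cq_511_512 : chkq 511 512 256 = true := by decide +kernel
theorem cq_762_512 : chkq 762 512 512 = true := by decide +kernel
theorem cq_920_0 : chkq 920 0 1024 = true := by decide +kernel
theorem cq_959_0 : chkq 959 0 512 = true := by decide +kernel
theorem cq_1749_512 : chkq 1749 512 512 = true := by decide +kernel
theorem cq_1751_512 : chkq 1751 512 256 = true := by decide +kernel
theorem cq_1788_768 : chkq 1788 768 256 = true := by decide +kernel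
theorem cq_4061_0 : chkq 4061 0 256 = true := by decide +kernel
theorem cq_7101_0 : chkq 7101 0 512 = true := by decide +kernel
theorem cq_7103_0 : chkq 7103 0 512 = true := by decide +kernel
theorem cq_16383_512 : chkq 16383 512 256 = true := by decide +kernel
theorem cq_32767_896 : chkq 32767 896 128 = true := by decide +kernel

end Pool.Agent.N465.L2
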