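import Pool.Agent.N465.L2q.Defq
import Pool.Agent.N465.L2q.Cq6

/-! Kernel checks. -/

set_option autoImplicit false
set_option maxRecDepth 100000

namespace Pool.Agent.N465.L2

theorem cq_761_512 : chkq 761 512 512 = true := by decide +kernel
theorem cq_1751_768 : chkq 1751 768 256 = true := by decide +kernel
theorem cq_1788_512 : chkq 1788 512 256 = true := by decide +kernel
theorem cq_1880_0 : chkq 1880 0 512 = true := by decide +kernel
theorem cq_2013_512 : chkq 2013 512 512 = true := by decide +kernel
theorem cq_2046_512 : chkq 2046 512 512 = true := by decide +kernel
theorem cq_4060_512 : chkq 4060 512 256 = true := by decide +kernel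
theorem cq_5948_0 : chkq 5948 0 512 = true := by decide +kernel
theorem cq_6015_0 : chkq 6015 0 512 = true := by decide +kernel
theorem cq_6655_768 : chkq 6655 768 256 = true := by decide +kernel
theorem cq_7071_768 : chkq 7071 768 256 = true := by decide +kernel
theorem cq_8191_0 : chkq 8191 0 256 = true := by decide +kernel

end Pool.Agent.N465.L2
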