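import Pool.Agent.N465.L2q.Defq

/-! Kernel checks. -/

set_option autoImplicit false
set_option maxRecDepth 100000

namespace Pool.Agent.N465.L2

theorem cq_246_0 : chkq 246 0 1024 = true := by decide +kernel
theorem cq_1759_512 : chkq 1759 512 256 = true := by decide +kernel
theorem cq_1916_0 : chkq 1916 0 512 = true := by decide +kernel
theorem cq_1919_768 : chkq 1919 768 256 = true := by decide +kernel
theorem cq_2012_768 : chkq 2012 768 256 = true := by decide +kernel
theorem cq_4060_0 : chkq 4060 0 256 = true := by decide +kernel
theorem cq_4095_128 : chkq 4095 128 128 = true := by decide +kernel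
theorem cq_5919_0 : chkq 5919 0 256 = true := by decide +kernel
theorem cq_5951_256 : chkq 5951 256 256 = true := by decide +kernel
theorem cq_5951_512 : chkq 5951 512 256 = true := by decide +kernel
theorem cq_6007_0 : chkq 6007 0 512 = true := by decide +kernel
theorem cq_6015_512 : chkq 6015 512 512 = true := by decide +kernel

end Pool.Agent.N465.L2
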