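import Pool.Agent.N465.L2q.Defq
import Pool.Agent.N465.L2q.Cq7

/-! Kernel checks. -/

set_option autoImplicit false
set_option maxRecDepth 100000

namespace Pool.Agent.N465.L2

theorem cq_247_0 : chkq 247 0 512 = true := by decide +kernel
theorem cq_758_512 : chkq 758 512 512 = true := by decide +kernel
theorem cq_1788_0 : chkq 1788 0 256 = true := by decide +kernel
theorem cq_1791_768 : chkq 1791 768 256 = true := by decide +kernel
theorem cq_2012_256 : chkq 2012 256 256 = true := by decide +kernel
theorem cq_5875_0 : chkq 5875 0 512 = true := by decide +kernel
theorem cq_5919_768 : chkq 5919 768 256 = true := by decide +kernel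
theorem cq_6014_0 : chkq 6014 0 512 = true := by decide +kernel
theorem cq_6142_512 : chkq 6142 512 512 = true := by decide +kernel
theorem cq_6143_768 : chkq 6143 768 256 = true := by decide +kernel
theorem cq_8157_0 : chkq 8157 0 512 = true := by decide +kernel
theorem cq_32767_256 : chkq 32767 256 128 = true := by decide +kernel

end Pool.Agent.N465.L2
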