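import Pool.Agent.N465.L2q.Defq
import Pool.Agent.N465.L2q.Cq0

/-! Kernel checks. -/

set_option autoImplicit false
set_option maxRecDepth 100000

namespace Pool.Agent.N465.L2

theorem cq_691_0 : chkq 691 0 1024 = true := by decide +kernel
theorem cq_695_512 : chkq 695 512 512 = true := by decide +kernel
theorem cq_759_768 : chkq 759 768 256 = true := by decide +kernel
theorem cq_760_512 : chkq 760 512 512 = true := by decide +kernel
theorem cq_954_0 : chkq 954 0 512 = true := by decide +kernel
theorem cq_1023_256 : chkq 1023 256 256 = true := by decide +kernel
theorem cq_4060_768 : chkq 4060 768 256 = true := by decide +kernel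
theorem cq_4063_0 : chkq 4063 0 256 = true := by decide +kernel
theorem cq_7071_0 : chkq 7071 0 256 = true := by decide +kernel
theorem cq_7166_512 : chkq 7166 512 512 = true := by decide +kernel
theorem cq_8191_256 : chkq 8191 256 256 = true := by decide +kernel
theorem cq_32767_512 : chkq 32767 512 128 = true := by decide +kernel

end Pool.Agent.N465.L2
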