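import Pool.Agent.N465.L2q.Defq
import Pool.Agent.N465.L2q.Cq8

/-! Kernel checks. -/

set_option autoImplicit false
set_option maxRecDepth 100000

namespace Pool.Agent.N465.L2

theorem cq_120_0 : chkq 120 0 1024 = true := by decide +kernel
theorem cq_657_0 : chkq 657 0 1024 = true := by decide +kernel
theorem cq_693_0 : chkq 693 0 1024 = true := by decide +kernel
theorem cq_759_0 : chkq 759 0 256 = true := by decide +kernel
theorem cq_956_512 : chkq 956 512 512 = true := by decide +kernel
theorem cq_1884_0 : chkq 1884 0 512 = true := by decide +kernel
theorem cq_1915_512 : chkq 1915 512 512 = true := by decide +kernel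
theorem cq_2014_0 : chkq 2014 0 512 = true := by decide +kernel
theorem cq_4095_768 : chkq 4095 768 128 = true := by decide +kernel
theorem cq_5872_0 : chkq 5872 0 256 = true := by decide +kernel
theorem cq_7100_0 : chkq 7100 0 256 = true := by decide +kernel
theorem cq_7100_768 : chkq 7100 768 256 = true := by decide +kernel
theorem cq_8191_512 : chkq 8191 512 256 = true := by decide +kernel

end Pool.Agent.N465.L2
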