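import Pool.Agent.N465.L2q.Defq
import Pool.Agent.N465.L2q.Cq1

/-! Kernel checks. -/

set_option autoImplicit false
set_option maxRecDepth 100000

namespace Pool.Agent.N465.L2

theorem cq_511_768 : chkq 511 768 256 = true := by decide +kernel
theorem cq_958_0 : chkq 958 0 512 = true := by decide +kernel
theorem cq_1880_512 : chkq 1880 512 512 = true := by decide +kernel
theorem cq_1887_512 : chkq 1887 512 512 = true := by decide +kernel
theorem cq_2012_0 : chkq 2012 0 256 = true := by decide +kernel
theorem cq_2013_0 : chkq 2013 0 512 = true := by decide +kernel
theorem cq_5872_768 : chkq 5872 768 256 = true := by decide +kernel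
theorem cq_5873_768 : chkq 5873 768 256 = true := by decide +kernel
theorem cq_5949_512 : chkq 5949 512 512 = true := by decide +kernel
theorem cq_7166_0 : chkq 7166 0 512 = true := by decide +kernel
theorem cq_16383_256 : chkq 16383 256 256 = true := by decide +kernel
theorem cq_32767_128 : chkq 32767 128 128 = true := by decide +kernel

end Pool.Agent.N465.L2
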