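import Pool.Agent.N465.L2q.Defq
import Pool.Agent.N465.L2q.Cq9

/-! Kernel checks. -/

set_option autoImplicit false
set_option maxRecDepth 100000

namespace Pool.Agent.N465.L2

theorem cq_763_0 : chkq 763 0 512 = true := by decide +kernel
theorem cq_955_512 : chkq 955 512 512 = true := by decide +kernel
theorem cq_1759_768 : chkq 1759 768 256 = true := by decide +kernel
theorem cq_1791_256 : chkq 1791 256 256 = true := by decide +kernel
theorem cq_1917_0 : chkq 1917 0 512 = true := by decide +kernel
theorem cq_2015_768 : chkq 2015 768 256 = true := by decide +kernel
theorem cq_2046_0 : chkq 2046 0 512 = true := by decide +kernel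
theorem cq_4095_256 : chkq 4095 256 128 = true := by decide +kernel
theorem cq_5919_512 : chkq 5919 512 256 = true := by decide +kernel
theorem cq_6142_0 : chkq 6142 0 512 = true := by decide +kernel
theorem cq_7071_256 : chkq 7071 256 256 = true := by decide +kernel
theorem cq_15870_0 : chkq 15870 0 1024 = true := by decide +kernel

end Pool.Agent.N465.L2
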