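import Pool.Agent.N465.L2q.Defq
import Pool.Agent.N465.L2q.Cq10

/-! Kernel checks. -/

set_option autoImplicit false
set_option maxRecDepth 100000

namespace Pool.Agent.N465.L2

theorem cq_639_0 : chkq 639 0 256 = true := by decide +kernel
theorem cq_700_0 : chkq 700 0 1024 = true := by decide +kernel
theorem cq_701_512 : chkq 701 512 512 = true := by decide +kernel
theorem cq_957_0 : chkq 957 0 512 = true := by decide +kernel
theorem cq_1749_0 : chkq 1749 0 512 = true := by decide +kernel
theorem cq_1780_512 : chkq 1780 512 256 = true := by decide +kernel
theorem cq_1781_256 : chkq 1781 256 256 = true := by decide +kernel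
theorem cq_1783_768 : chkq 1783 768 256 = true := by decide +kernel
theorem cq_5879_512 : chkq 5879 512 512 = true := by decide +kernel
theorem cq_7100_256 : chkq 7100 256 256 = true := by decide +kernel
theorem cq_8191_768 : chkq 8191 768 256 = true := by decide +kernel
theorem cq_15871_512 : chkq 15871 512 512 = true := by decide +kernel

end Pool.Agent.N465.L2
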