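import Pool.Agent.N465.L2q.Defq
import Pool.Agent.N465.L2q.Cq11

/-! Kernel checks. -/

set_option autoImplicit false
set_option maxRecDepth 100000

namespace Pool.Agent.N465.L2

theorem cq_632_0 : chkq 632 0 1024 = true := by decide +kernel
theorem cq_635_0 : chkq 635 0 512 = true := by decide +kernel
theorem cq_767_512 : chkq 767 512 256 = true := by decide +kernel
theorem cq_1780_0 : chkq 1780 0 256 = true := by decide +kernel
theorem cq_1789_768 : chkq 1789 768 256 = true := by decide +kernel
theorem cq_1919_512 : chkq 1919 512 256 = true := by decide +kernel
theorem cq_4063_512 : chkq 4063 512 256 = true := by decide +kernel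
theorem cq_5872_512 : chkq 5872 512 256 = true := by decide +kernel
theorem cq_5873_256 : chkq 5873 256 256 = true := by decide +kernel
theorem cq_5879_0 : chkq 5879 0 512 = true := by decide +kernel
theorem cq_5941_0 : chkq 5941 0 512 = true := by decide +kernel
theorem cq_7101_512 : chkq 7101 512 512 = true := by decide +kernel

end Pool.Agent.N465.L2
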