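import Pool.Agent.N465.L2q.Defq
import Pool.Agent.N465.L2q.Cq12

/-! Kernel checks. -/

set_option autoImplicit false
set_option maxRecDepth 100000

namespace Pool.Agent.N465.L2

theorem cq_254_512 : chkq 254 512 512 = true := by decide +kernel
theorem cq_695_0 : chkq 695 0 512 = true := by decide +kernel
theorem cq_955_0 : chkq 955 0 512 = true := by decide +kernel
theorem cq_959_512 : chkq 959 512 512 = true := by decide +kernel
theorem cq_1781_768 : chkq 1781 768 256 = true := by decide +kernel
theorem cq_1919_256 : chkq 1919 256 256 = true := by decide +kernel
theorem cq_2047_0 : chkq 2047 0 256 = true := by decide +kernel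
theorem cq_5919_256 : chkq 5919 256 256 = true := by decide +kernel
theorem cq_5943_0 : chkq 5943 0 512 = true := by decide +kernel
theorem cq_5950_512 : chkq 5950 512 512 = true := by decide +kernel
theorem cq_7167_0 : chkq 7167 0 256 = true := by decide +kernel
theorem cq_32767_640 : chkq 32767 640 128 = true := by decide +kernel

end Pool.Agent.N465.L2
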