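import Pool.Agent.N465.L2q.Defq
import Pool.Agent.N465.L2q.Cq13

/-! Kernel checks. -/

set_option autoImplicit false
set_option maxRecDepth 100000

namespace Pool.Agent.N465.L2

theorem cq_255_512 : chkq 255 512 512 = true := by decide +kernel
theorem cq_511_0 : chkq 511 0 256 = true := by decide +kernel
theorem cq_633_0 : chkq 633 0 1024 = true := by decide +kernel
theorem cq_671_512 : chkq 671 512 512 = true := by decide +kernel
theorem cq_759_256 : chkq 759 256 256 = true := by decide +kernel
theorem cq_759_512 : chkq 759 512 256 = true := by decide +kernel
theorem cq_922_0 : chkq 922 0 1024 = true := by decide +kernel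
theorem cq_1022_0 : chkq 1022 0 512 = true := by decide +kernel
theorem cq_1751_0 : chkq 1751 0 256 = true := by decide +kernel
theorem cq_4060_256 : chkq 4060 256 256 = true := by decide +kernel
theorem cq_4095_384 : chkq 4095 384 128 = true := by decide +kernel
theorem cq_8159_512 : chkq 8159 512 512 = true := by decide +kernel

end Pool.Agent.N465.L2
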