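import Pool.Agent.N465.L2q.Defq
import Pool.Agent.N465.L2q.Cq14

/-! Kernel checks. -/

set_option autoImplicit false
set_option maxRecDepth 100000

namespace Pool.Agent.N465.L2

theorem cq_659_0 : chkq 659 0 1024 = true := by decide +kernel
theorem cq_703_512 : chkq 703 512 512 = true := by decide +kernel
theorem cq_758_0 : chkq 758 0 512 = true := by decide +kernel
theorem cq_760_0 : chkq 760 0 512 = true := by decide +kernel
theorem cq_762_0 : chkq 762 0 512 = true := by decide +kernel
theorem cq_954_512 : chkq 954 512 512 = true := by decide +kernel
theorem cq_1789_256 : chkq 1789 256 256 = true := by decide +kernel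
theorem cq_1881_512 : chkq 1881 512 512 = true := by decide +kernel
theorem cq_4063_768 : chkq 4063 768 256 = true := by decide +kernel
theorem cq_5941_512 : chkq 5941 512 512 = true := by decide +kernel
theorem cq_6007_512 : chkq 6007 512 512 = true := by decide +kernel
theorem cq_6655_0 : chkq 6655 0 256 = true := by decide +kernel

end Pool.Agent.N465.L2
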