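import Pool.Agent.N465.L2q.Defq
import Pool.Agent.N465.L2q.Cq15

/-! Kernel checks. -/

set_option autoImplicit false
set_option maxRecDepth 100000

namespace Pool.Agent.N465.L2

theorem cq_662_0 : chkq 662 0 1024 = true := by decide +kernel
theorem cq_927_0 : chkq 927 0 512 = true := by decide +kernel
theorem cq_1023_768 : chkq 1023 768 256 = true := by decide +kernel
theorem cq_1916_512 : chkq 1916 512 512 = true := by decide +kernel
theorem cq_1919_0 : chkq 1919 0 256 = true := by decide +kernel
theorem cq_5905_512 : chkq 5905 512 512 = true := by decide +kernel
theorem cq_5911_512 : chkq 5911 512 512 = true := by decide +kernel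
theorem cq_5949_0 : chkq 5949 0 512 = true := by decide +kernel
theorem cq_6014_512 : chkq 6014 512 512 = true := by decide +kernel
theorem cq_6143_0 : chkq 6143 0 256 = true := by decide +kernel
theorem cq_6143_512 : chkq 6143 512 256 = true := by decide +kernel
theorem cq_6654_0 : chkq 6654 0 512 = true := by decide +kernel

end Pool.Agent.N465.L2
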