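import Pool.Agent.N465.L2q.Asmq0
import Pool.Agent.N465.L2.CDG
import Pool.Agent.N465.L2.STAR

/-! The upper bound, with the number of the five-sets with an odd number of edges. -/

set_option autoImplicit false

open Finset

namespace Pool.Agent.N465.L2q

open Pool.Agent.N465.L2

/-- the number of the five-sets with exactly `k` non-edges -/
theorem upp (hR : ∀ K ∈ repsL, ∀ w < 1024, Lv1q K w = true) : ∃ C : ℝ, ∀ (n : ℕ) (G : Finset (Finset (Fin n))),
    (∀ s ∈ G, s.card = 4) → K54Free G →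
    ∑ P ∈ (univ : Finset (Fin n)).powersetCard 3, (codeg G P : ℝ) ^ 2
      + 1 / 64 * ((StarAux.fives ((powersetCard 4 (univ : Finset (Fin n))) \ G) 2 : ℝ)
        + StarAux.fives ((powersetCard 4 (univ : Finset (Fin n))) \ G) 4)
      ≤ 31 / 384 * (n : ℝ) ^ 5 + C * (n : ℝ) ^ 4 := by
  obtain ⟨C, hC⟩ := goal_STAR
  refine ⟨C / 3840, fun n G hG hF => ?_⟩
  obtain ⟨hS, hc⟩ := goal_NON n G hG hF
  obtain ⟨h1, h2⟩ := goal_CDG n G hG hF
  have h3 := ineq7 hR hS hc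
  have h4 := hC n G hG hF
  have h5 : (130 : ℝ) * p5 (non G) 1 ≤ 189 * p5 (non G) 2 + 446 * p5 (non G) 3 + 637 * p5 (non G) 4
      + 510 * p5 (non G) 5 := by exact_mod_cast h3
  have h6 : (60 : ℝ) * ∑ P ∈ (univ : Finset (Fin n)).powersetCard 3, (codeg G P : ℝ) ^ 2
      = 6 * p5 (non G) 1 + 3 * p5 (non G) 2 + p5 (non G) 3 := by exact_mod_cast h1
  have h7 : (p5 (non G) 1 : ℝ) + p5 (non G) 2 + p5 (non G) 3 + p5 (non G) 4 + p5 (non G) 5 = (n : ℝ) ^ 5 := by
    exact_mod_cast h2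
  have h8 : (120 : ℝ) * StarAux.fives ((powersetCard 4 (univ : Finset (Fin n))) \ G) 2 ≤ p5 (non G) 2 := by
    exact_mod_cast (StarAux.p5_eq G 2).1
  have h9 : (120 : ℝ) * StarAux.fives ((powersetCard 4 (univ : Finset (Fin n))) \ G) 4 ≤ p5 (non G) 4 := by
    exact_mod_cast (StarAux.p5_eq G 4).1
  linarith

end Pool.Agent.N465.L2q
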