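import Pool.Agent.N465.L2q.Sqq
import Pool.Agent.N465.L2q.UPPq0
import Pool.Agent.N2.L2.LOW

/-! The final form, with the five-sets which span an odd number of edges. -/

set_option autoImplicit false
set_option linter.unusedSectionVars false

open Finset Filter Topology

namespace Pool.Agent.N465.L2q

open Pool.Agent.N465.L2

/-- the upper bound as it is used below -/
def UPPst : Prop := ∃ C : ℝ, ∀ (n : ℕ) (G : Finset (Finset (Fin n))),
    (∀ s ∈ G, s.card = 4) → K54Free G →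
    ∑ P ∈ (univ : Finset (Fin n)).powersetCard 3, (codeg G P : ℝ) ^ 2
      + 1 / 64 * ((StarAux.fives ((powersetCard 4 (univ : Finset (Fin n))) \ G) 2 : ℝ)
        + StarAux.fives ((powersetCard 4 (univ : Finset (Fin n))) \ G) 4)
      ≤ 31 / 384 * (n : ℝ) ^ 5 + C * (n : ℝ) ^ 4


theorem sq_free {n : ℕ} {G : Finset (Finset (Fin n))} (h : Sq.CliqueFree n G) :
    (∀ s ∈ G, s.card = 4) ∧ K54Free G := h

theorem sq_sum {n : ℕ} (G : Finset (Finset (Fin n))) :
    (Sq.squareSum G : ℝ) = ∑ P ∈ (univ : Finset (Fin n)).powersetCard 3, (codeg G P : ℝ) ^ 2 := by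
  unfold Sq.squareSum Sq.codegree codeg
  push_cast
  rfl

/-- the number of the five-sets which span an odd number of edges -/
def oddN {n : ℕ} (G : Finset (Finset (Fin n))) : ℕ :=
  (((univ : Finset (Fin n)).powersetCard 5).filter fun S => Odd (G.filter (· ⊆ S)).card).card

theorem odd_le {n : ℕ} {G : Finset (Finset (Fin n))} (hG : ∀ s ∈ G, s.card = 4) (hF : K54Free G) :
    oddN G ≤ StarAux.fives ((powersetCard 4 (univ : Finset (Fin n))) \ G) 2
      + StarAux.fives ((powersetCard 4 (univ : Finset (Fin n))) \ G) 4 := by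
  unfold oddN StarAux.fives
  refine le_trans (Finset.card_le_card ?_) (Finset.card_union_le _ _)
  intro S hS
  rw [Finset.mem_filter] at hS
  obtain ⟨hS5, hodd⟩ := hS
  have hc : S.card = 5 := (Finset.mem_powersetCard.mp hS5).2
  have hsum : (G.filter (· ⊆ S)).card + (((powersetCard 4 (univ : Finset (Fin n))) \ G).filter (· ⊆ S)).card = 5 := by
    have h1 : (S.powersetCard 4).card = 5 := by
      rw [Finset.card_powersetCard, hc]
      rfl
    rw [← h1, ← Finset.card_filter_add_card_filter_not (s := S.powersetCard 4) (· ∈ G)]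
    congr 1
    · congr 1
      ext t
      simp only [Finset.mem_filter, Finset.mem_powersetCard]
      exact ⟨fun h => ⟨⟨h.2, hG t h.1⟩, h.1⟩, fun h => ⟨h.2, h.1.1⟩⟩
    · congr 1
      ext t
      simp only [Finset.mem_filter, Finset.mem_powersetCard, Finset.mem_sdiff, Finset.subset_univ, true_and]
      exact ⟨fun h => ⟨⟨h.2, h.1.1⟩, h.1.2⟩, fun h => ⟨⟨h.1.2, h.2⟩, h.1.1⟩⟩
  have hpos : 0 < (((powersetCard 4 (univ : Finset (Fin n))) \ G).filter (· ⊆ S)).card := by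
    obtain ⟨s, hs1, hs2, hs3⟩ := hF S hc
    refine Finset.card_pos.mpr ⟨s, ?_⟩
    rw [Finset.mem_filter, Finset.mem_sdiff, Finset.mem_powersetCard]
    exact ⟨⟨⟨Finset.subset_univ _, hs2⟩, hs3⟩, hs1⟩
  obtain ⟨c, hc'⟩ := hodd
  rw [Finset.mem_union, Finset.mem_filter, Finset.mem_filter]
  generalize (((powersetCard 4 (univ : Finset (Fin n))) \ G).filter (· ⊆ S)).card = b at hsum hpos ⊢
  have hb : b = 2 ∨ b = 4 := by omega
  rcases hb with hb | hb
  · left; exact ⟨hS5, hb⟩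
  · right; exact ⟨hS5, hb⟩

/-- the upper bound -/
theorem ex_leo (hU : UPPst) : ∃ C : ℝ, 0 ≤ C ∧ ∀ (n : ℕ) (G : Finset (Finset (Fin n))), Sq.CliqueFree n G →
    (Sq.squareSum G : ℝ) + 1 / 64 * (oddN G : ℝ) ≤ 31 / 384 * (n : ℝ) ^ 5 + C * (n : ℝ) ^ 4 := by
  obtain ⟨C, hC⟩ := hU
  refine ⟨max C 0, le_max_right _ _, fun n G hG => ?_⟩
  rw [sq_sum]
  have h := hC n G hG.1 hG.2
  have h2 : C * (n : ℝ) ^ 4 ≤ max C 0 * (n : ℝ) ^ 4 :=
    mul_le_mul_of_nonneg_right (le_max_left _ _) (by positivity)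
  have h3 : (oddN G : ℝ) ≤ (StarAux.fives ((powersetCard 4 (univ : Finset (Fin n))) \ G) 2 : ℝ)
        + StarAux.fives ((powersetCard 4 (univ : Finset (Fin n))) \ G) 4 := by
    exact_mod_cast odd_le hG.1 hG.2
  linarith

theorem ex_le (hU : UPPst) : ∃ C : ℝ, 0 ≤ C ∧ ∀ (n : ℕ) (G : Finset (Finset (Fin n))), Sq.CliqueFree n G →
    (Sq.squareSum G : ℝ) ≤ 31 / 384 * (n : ℝ) ^ 5 + C * (n : ℝ) ^ 4 := by
  obtain ⟨C, h0, hC⟩ := ex_leo hU
  refine ⟨C, h0, fun n G hG => ?_⟩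
  have h := hC n G hG
  have h2 : (0 : ℝ) ≤ oddN G := Nat.cast_nonneg _
  linarith

theorem exSquare_le (hU : UPPst) : ∃ C : ℝ, 0 ≤ C ∧ ∀ n : ℕ, (Sq.exSquare n : ℝ) ≤ 31 / 384 * (n : ℝ) ^ 5 + C * (n : ℝ) ^ 4 := by
  classical
  obtain ⟨C, h0, hC⟩ := ex_le hU
  refine ⟨C, h0, fun n => ?_⟩
  have key : ∃ G : Finset (Finset (Fin n)), Sq.CliqueFree n G ∧ Sq.exSquare n = Sq.squareSum G := by
    have hne : ((univ : Finset (Finset (Finset (Fin n)))).filter (Sq.CliqueFree n)).Nonempty := by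
      refine ⟨∅, ?_⟩
      rw [Finset.mem_filter]
      refine ⟨mem_univ _, ?_, ?_⟩
      · intro s hs
        exact absurd hs (by simp)
      · intro S hS
        obtain ⟨s, hs1, hs2⟩ := Finset.exists_subset_card_eq (s := S) (n := 4) (by omega)
        exact ⟨s, hs1, hs2, by simp⟩
    obtain ⟨G, hG, he⟩ := Finset.exists_mem_eq_sup _ hne Sq.squareSum
    rw [Finset.mem_filter] at hG
    exact ⟨G, hG.2, by unfold Sq.exSquare; convert he⟩
  obtain ⟨G, hG, he⟩ := key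
  rw [he]
  exact hC n G hG

theorem le_exSquare {n : ℕ} {G : Finset (Finset (Fin n))} (h : Sq.CliqueFree n G) :
    Sq.squareSum G ≤ Sq.exSquare n := by
  classical
  unfold Sq.exSquare
  refine Finset.le_sup (f := Sq.squareSum) ?_
  rw [Finset.mem_filter]
  exact ⟨mem_univ _, h⟩

theorem choose3 (n : ℕ) : (n.choose 3 : ℝ) = (n : ℝ) * (n - 1) * (n - 2) / 6 := by
  induction n with
  | zero => simp
  | succ n ih =>
    rw [Nat.choose_succ_succ' n 2, Nat.cast_add, ih, Nat.cast_choose_two]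
    push_cast
    ring

theorem choose4 (n : ℕ) : (n.choose 4 : ℝ) = (n : ℝ) * (n - 1) * (n - 2) * (n - 3) / 24 := by
  induction n with
  | zero => simp
  | succ n ih =>
    rw [Nat.choose_succ_succ' n 3, Nat.cast_add, ih, choose3]
    push_cast
    ring

theorem choose5 (n : ℕ) : (n.choose 5 : ℝ) = (n : ℝ) * (n - 1) * (n - 2) * (n - 3) * (n - 4) / 120 := by
  induction n with
  | zero => simp
  | succ n ih =>
    rw [Nat.choose_succ_succ' n 4, Nat.cast_add, ih, choose4]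
    push_cast
    ring

/-- comparison of the normalisations -/
theorem norm_le {n : ℕ} (hn : 4 ≤ n) :
    (n : ℝ) ^ 5 ≤ ((n : ℝ) + 200) * (((n : ℝ) - 1) * (n - 2) * (n - 3) ^ 2) := by
  obtain ⟨m, rfl⟩ := Nat.exists_eq_add_of_le hn
  push_cast
  have h : (0 : ℝ) ≤ m := Nat.cast_nonneg m
  have e : (4 + (m : ℝ) + 200) * ((4 + (m : ℝ) - 1) * (4 + m - 2) * (4 + m - 3) ^ 2) - (4 + (m : ℝ)) ^ 5
      = 191 * (m : ℝ) ^ 4 + 1285 * (m : ℝ) ^ 3 + 2845 * (m : ℝ) ^ 2 + 2194 * m + 200 := by ring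
  have h2 : (0 : ℝ) ≤ 191 * (m : ℝ) ^ 4 + 1285 * (m : ℝ) ^ 3 + 2845 * (m : ℝ) ^ 2 + 2194 * m + 200 := by positivity
  linarith

/-- the sum of the codegrees -/
theorem sum_codegree {n : ℕ} {G : Finset (Finset (Fin n))} (h : ∀ s ∈ G, s.card = 4) :
    ∑ P ∈ (univ : Finset (Fin n)).powersetCard 3, Sq.codegree G P = 4 * G.card := by
  unfold Sq.codegree
  have h1 : ∑ P ∈ (univ : Finset (Fin n)).powersetCard 3, (G.filter (P ⊆ ·)).card =
      ∑ s ∈ G, (((univ : Finset (Fin n)).powersetCard 3).filter (· ⊆ s)).card := by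
    simp only [Finset.card_filter]
    rw [Finset.sum_comm]
  rw [h1]
  have h2 : ∀ s ∈ G, (((univ : Finset (Fin n)).powersetCard 3).filter (· ⊆ s)).card = 4 := by
    intro s hs
    have e : ((univ : Finset (Fin n)).powersetCard 3).filter (· ⊆ s) = s.powersetCard 3 := by
      ext P
      simp only [Finset.mem_filter, Finset.mem_powersetCard, Finset.subset_univ, true_and]
      exact and_comm
    rw [e, Finset.card_powersetCard, h s hs]
    rfl
  rw [Finset.sum_congr rfl h2, Finset.sum_const, smul_eq_mul, mul_comm]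

/-- mean square = square of the mean + variance -/
theorem mean_sq {n : ℕ} (hn : 4 ≤ n) {G : Finset (Finset (Fin n))} (h : ∀ s ∈ G, s.card = 4) :
    Sq.density G ^ 2 + Sq.variance G = (Sq.squareSum G : ℝ) / ((n.choose 3 : ℝ) * ((n : ℝ) - 3) ^ 2) := by
  have hn' : (4 : ℝ) ≤ n := by exact_mod_cast hn
  have h3 : ((n : ℝ) - 3) ≠ 0 := by linarith
  have hc : (n.choose 3 : ℝ) ≠ 0 := by
    rw [choose3]
    have : (0 : ℝ) < (n : ℝ) * (n - 1) * (n - 2) / 6 := by
      have a1 : (0 : ℝ) < (n : ℝ) := by linarith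
      have a2 : (0 : ℝ) < (n : ℝ) - 1 := by linarith
      have a3 : (0 : ℝ) < (n : ℝ) - 2 := by linarith
      positivity
    exact this.ne'
  have hs : ∑ P ∈ (univ : Finset (Fin n)).powersetCard 3, (Sq.codegree G P : ℝ) = 4 * G.card := by
    exact_mod_cast sum_codegree h
  have hd : Sq.density G * (n.choose 3 : ℝ) * ((n : ℝ) - 3) = 4 * G.card := by
    unfold Sq.density
    have e : (n.choose 3 : ℝ) * ((n : ℝ) - 3) = 4 * (n.choose 4 : ℝ) := by
      rw [choose3, choose4]; ring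
    have h4 : (n.choose 4 : ℝ) ≠ 0 := by
      intro h0
      rw [h0, mul_zero] at e
      rcases mul_eq_zero.mp e with h | h
      · exact hc h
      · exact h3 h
    rw [mul_assoc, e]
    field_simp
  have hcard : ((univ : Finset (Fin n)).powersetCard 3).card = n.choose 3 := by
    rw [Finset.card_powersetCard, Finset.card_univ, Fintype.card_fin]
  unfold Sq.variance Sq.squareSum
  set d := Sq.density G with hd0
  have e1 : ∑ P ∈ (univ : Finset (Fin n)).powersetCard 3, ((Sq.codegree G P : ℝ) / ((n : ℝ) - 3) - d) ^ 2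
      = (∑ P ∈ (univ : Finset (Fin n)).powersetCard 3, (Sq.codegree G P : ℝ) ^ 2) / ((n : ℝ) - 3) ^ 2
        - 2 * d / ((n : ℝ) - 3) * (4 * G.card) + (n.choose 3 : ℝ) * d ^ 2 := by
    rw [← hs, Finset.sum_div, Finset.mul_sum, ← Finset.sum_sub_distrib, ← hcard]
    rw [← nsmul_eq_mul, ← Finset.sum_const, ← Finset.sum_add_distrib]
    refine Finset.sum_congr rfl fun P _ => ?_
    field_simp
    ring
  rw [e1, ← hd]
  push_cast
  field_simp
  ring

theorem Q_pos {n : ℕ} (hn : 4 ≤ n) : (0 : ℝ) < ((n : ℝ) - 1) * (n - 2) * (n - 3) ^ 2 := by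
  have hn' : (4 : ℝ) ≤ n := by exact_mod_cast hn
  have a2 : (0 : ℝ) < (n : ℝ) - 1 := by linarith
  have a3 : (0 : ℝ) < (n : ℝ) - 2 := by linarith
  have a4 : (0 : ℝ) < (n : ℝ) - 3 := by linarith
  positivity

theorem norm_eq (n : ℕ) : (n.choose 3 : ℝ) * ((n : ℝ) - 3) ^ 2 = n * (((n : ℝ) - 1) * (n - 2) * (n - 3) ^ 2) / 6 := by
  rw [choose3]; ring

theorem norm_pos {n : ℕ} (hn : 4 ≤ n) : (0 : ℝ) < (n.choose 3 : ℝ) * ((n : ℝ) - 3) ^ 2 := by
  rw [norm_eq]
  have hn' : (0 : ℝ) < n := by exact_mod_cast (by omega : 0 < n)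
  have := Q_pos hn
  positivity

/-- the upper bound after normalisation -/
theorem norm_bound {C S : ℝ} (hC : 0 ≤ C) {n : ℕ} (hn : 4 ≤ n) (hS : S ≤ 31 / 384 * (n : ℝ) ^ 5 + C * (n : ℝ) ^ 4) :
    S / ((n.choose 3 : ℝ) * ((n : ℝ) - 3) ^ 2) ≤ 31 / 64 + (97 + 306 * C) / n := by
  have hn' : (4 : ℝ) ≤ n := by exact_mod_cast hn
  have h0 : (0 : ℝ) < n := by linarith
  rw [div_le_iff₀ (norm_pos hn), norm_eq]
  have hQ := Q_pos hn
  have hN := norm_le hn
  set Q := ((n : ℝ) - 1) * (n - 2) * (n - 3) ^ 2 with hQd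
  have e : (31 / 64 + (97 + 306 * C) / (n : ℝ)) * (n * Q / 6) = 31 / 384 * (n * Q) + (97 / 6 + 51 * C) * Q := by
    field_simp
    ring
  rw [e]
  have h4 : (n : ℝ) ^ 4 ≤ 51 * Q := by
    have h5 : (n : ℝ) * (n : ℝ) ^ 4 ≤ n * (51 * Q) := by
      have : ((n : ℝ) + 200) * Q ≤ (51 * n) * Q := mul_le_mul_of_nonneg_right (by linarith) hQ.le
      calc (n : ℝ) * (n : ℝ) ^ 4 = (n : ℝ) ^ 5 := by ring
        _ ≤ ((n : ℝ) + 200) * Q := hN
        _ ≤ (51 * n) * Q := this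
        _ = n * (51 * Q) := by ring
    exact le_of_mul_le_mul_left h5 h0
  have h6 : C * (n : ℝ) ^ 4 ≤ C * (51 * Q) := mul_le_mul_of_nonneg_left h4 hC
  have h7 : 31 / 384 * (n : ℝ) ^ 5 ≤ 31 / 384 * (((n : ℝ) + 200) * Q) :=
    mul_le_mul_of_nonneg_left hN (by norm_num)
  nlinarith [h6, h7, hQ]

/-- part two -/
theorem part2 (hU : UPPst) : ∃ C : ℝ, ∀ n : ℕ, 4 ≤ n → ∀ G : Finset (Finset (Fin n)), Sq.CliqueFree n G →
    Sq.density G ^ 2 + Sq.variance G + 1 / 1280 * Sq.oddFives G ≤ 31 / 64 + C / n ∧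
    ∀ δ : ℝ, 0 ≤ δ → 3 / 256 - δ ≤ Sq.variance G → Sq.density G ≤ 11 / 16 + δ + C / n := by
  obtain ⟨C, h0, hC⟩ := ex_leo hU
  refine ⟨98 + 306 * C, fun n hn G hG => ?_⟩
  have hn' : (4 : ℝ) ≤ n := by exact_mod_cast hn
  have hod : 1 / 1280 * Sq.oddFives G ≤
      (1 / 64 * (oddN G : ℝ)) / ((n.choose 3 : ℝ) * ((n : ℝ) - 3) ^ 2) + 1 / n := by
    have hdef : Sq.oddFives G = (oddN G : ℝ) / (n.choose 5 : ℝ) := rfl
    have hN := norm_pos hn
    rcases Nat.lt_or_ge n 5 with h5 | h5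
    · have h6 : n.choose 5 = 0 := Nat.choose_eq_zero_of_lt h5
      rw [hdef, h6, Nat.cast_zero, div_zero, mul_zero]
      positivity
    · have hn5 : (5 : ℝ) ≤ n := by exact_mod_cast h5
      have hc5 : (0 : ℝ) < (n.choose 5 : ℝ) := by exact_mod_cast Nat.choose_pos h5
      have hle : (oddN G : ℝ) ≤ (n.choose 5 : ℝ) := by
        have : oddN G ≤ n.choose 5 := by
          unfold oddN
          refine le_trans (Finset.card_filter_le _ _) ?_
          rw [Finset.card_powersetCard, Finset.card_univ, Fintype.card_fin]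
        exact_mod_cast this
      have hrel : (n.choose 3 : ℝ) * ((n : ℝ) - 3) ^ 2 * ((n : ℝ) - 4) = 20 * ((n : ℝ) - 3) * (n.choose 5 : ℝ) := by
        rw [choose3, choose5]; ring
      have hf0 : (0 : ℝ) ≤ oddN G := Nat.cast_nonneg _
      rw [hdef]
      have h3 : (0 : ℝ) < (n : ℝ) - 3 := by linarith
      have hk : (1 / 64 * (oddN G : ℝ)) / ((n.choose 3 : ℝ) * ((n : ℝ) - 3) ^ 2)
          = 1 / 1280 * ((oddN G : ℝ) / (n.choose 5 : ℝ)) * (((n : ℝ) - 4) / ((n : ℝ) - 3)) := by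
        have hN' := hN.ne'
        rw [div_eq_iff hN']
        have : 1 / 1280 * ((oddN G : ℝ) / (n.choose 5 : ℝ)) * (((n : ℝ) - 4) / ((n : ℝ) - 3)) *
            ((n.choose 3 : ℝ) * ((n : ℝ) - 3) ^ 2)
            = 1 / 1280 * (oddN G : ℝ) / ((n.choose 5 : ℝ) * ((n : ℝ) - 3)) *
              ((n.choose 3 : ℝ) * ((n : ℝ) - 3) ^ 2 * ((n : ℝ) - 4)) := by
          field_simp
        rw [this, hrel]
        field_simp
        ring
      rw [hk]
      have hf1 : (oddN G : ℝ) / (n.choose 5 : ℝ) ≤ 1 := (div_le_one hc5).mpr hle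
      have hf2 : 0 ≤ (oddN G : ℝ) / (n.choose 5 : ℝ) := div_nonneg hf0 hc5.le
      generalize (oddN G : ℝ) / (n.choose 5 : ℝ) = f at hf1 hf2 ⊢
      have h7 : ((n : ℝ) - 4) / ((n : ℝ) - 3) = 1 - 1 / ((n : ℝ) - 3) := by
        field_simp
        ring
      have h8 : 1 / ((n : ℝ) - 3) ≤ 4 / n := by
        rw [div_le_div_iff₀ h3 (by linarith)]
        linarith
      have h9 : 0 ≤ 1 / ((n : ℝ) - 3) := by positivity
      rw [h7]
      have h10 : f * (1 / ((n : ℝ) - 3)) ≤ 1 * (4 / n) := mul_le_mul hf1 h8 h9 (by norm_num)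
      have h11 : (4 : ℝ) / n = 4 * (1 / n) := by ring
      have h12 : (0 : ℝ) ≤ 1 / n := by positivity
      rw [h11] at h10
      nlinarith [h10, h12]
  have h1 : Sq.density G ^ 2 + Sq.variance G + 1 / 1280 * Sq.oddFives G ≤ 31 / 64 + (98 + 306 * C) / n := by
    have h2 := norm_bound h0 hn (hC n G hG)
    rw [add_div] at h2
    rw [mean_sq hn hG.1]
    have e : (98 + 306 * C) / (n : ℝ) = (97 + 306 * C) / n + 1 / n := by ring
    rw [e]
    linarith
  refine ⟨h1, fun δ hδ hv => ?_⟩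
  have ho : 0 ≤ Sq.oddFives G := by
    unfold Sq.oddFives
    positivity
  by_contra hlt
  push Not at hlt
  have hx : (0 : ℝ) ≤ (98 + 306 * C) / n := by positivity
  generalize (98 + 306 * C) / (n : ℝ) = x at h1 hlt hx
  have hy : 0 ≤ δ + x := by linarith
  have h2 : (11 / 16 + (δ + x)) ^ 2 < Sq.density G ^ 2 := by
    apply pow_lt_pow_left₀ (by linarith) (by linarith) (by norm_num)
  nlinarith [h1, hv, h2, hy, ho, sq_nonneg (δ + x)]

/-- part one -/
theorem part1 (hU : UPPst) : Tendsto (fun n : ℕ => (Sq.exSquare n : ℝ) / ((n.choose 3 : ℝ) * ((n : ℝ) - 3) ^ 2)) atTop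
    (𝓝 (31 / 64)) := by
  obtain ⟨C, h0, hC⟩ := exSquare_le hU
  refine tendsto_order.2 ⟨fun a ha => ?_, fun b hb => ?_⟩
  · rcases lt_or_ge a 0 with ha0 | ha0
    · filter_upwards [eventually_ge_atTop 4] with n hn
      have := norm_pos hn
      exact lt_of_lt_of_le ha0 (by positivity)
    · obtain ⟨N, hN⟩ := Pool.Agent.N2.L2.goal_LOW ((31 / 64 - a) / 12) (by linarith)
      filter_upwards [eventually_ge_atTop (max N 4)] with n hn
      have hn4 : 4 ≤ n := le_trans (le_max_right _ _) hn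
      obtain ⟨G, hG1, hG2, hG3⟩ := hN n (le_trans (le_max_left _ _) hn)
      rw [lt_div_iff₀ (norm_pos hn4), norm_eq]
      have hle : (Sq.squareSum G : ℝ) ≤ Sq.exSquare n := by
        exact_mod_cast le_exSquare (G := G) ⟨hG1, hG2⟩
      rw [sq_sum] at hle
      have hn' : (4 : ℝ) ≤ n := by exact_mod_cast hn4
      have hQ := Q_pos hn4
      have hQ4 : ((n : ℝ) - 1) * (n - 2) * (n - 3) ^ 2 ≤ (n : ℝ) ^ 4 := by
        have b1 : (0 : ℝ) ≤ (n : ℝ) - 1 := by linarith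
        have b2 : (0 : ℝ) ≤ (n : ℝ) - 2 := by linarith
        have b3 : (0 : ℝ) ≤ (n : ℝ) - 3 := by linarith
        have c1 : ((n : ℝ) - 1) * (n - 2) ≤ n * n := mul_le_mul (by linarith) (by linarith) b2 (by linarith)
        have c2 : ((n : ℝ) - 3) ^ 2 ≤ n ^ 2 := by
          apply pow_le_pow_left₀ b3; linarith
        calc ((n : ℝ) - 1) * (n - 2) * (n - 3) ^ 2 ≤ (n * n) * n ^ 2 :=
              mul_le_mul c1 c2 (by positivity) (by positivity)
          _ = (n : ℝ) ^ 4 := by ring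
      have h5 : (n : ℝ) * (((n : ℝ) - 1) * (n - 2) * (n - 3) ^ 2) ≤ (n : ℝ) ^ 5 := by
        calc (n : ℝ) * (((n : ℝ) - 1) * (n - 2) * (n - 3) ^ 2) ≤ n * (n : ℝ) ^ 4 :=
              mul_le_mul_of_nonneg_left hQ4 (by linarith)
          _ = (n : ℝ) ^ 5 := by ring
      have h6 : (0 : ℝ) < (n : ℝ) ^ 5 := by positivity
      have h7 : a * ((n : ℝ) * (((n : ℝ) - 1) * (n - 2) * (n - 3) ^ 2) / 6) ≤ a / 6 * (n : ℝ) ^ 5 := by
        have := mul_le_mul_of_nonneg_left h5 ha0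
        linarith
      have h8 : a / 6 * (n : ℝ) ^ 5 < (31 / 384 - (31 / 64 - a) / 12) * (n : ℝ) ^ 5 :=
        mul_lt_mul_of_pos_right (by linarith) h6
      linarith
  · have hb' : 0 < b - 31 / 64 := by linarith
    obtain ⟨M, hM⟩ := exists_nat_gt ((97 + 306 * C) / (b - 31 / 64))
    filter_upwards [eventually_ge_atTop (max M 4)] with n hn
    have hn4 : 4 ≤ n := le_trans (le_max_right _ _) hn
    have hnM : (M : ℝ) ≤ n := by exact_mod_cast le_trans (le_max_left _ _) hn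
    have hn' : (0 : ℝ) < n := by exact_mod_cast (by omega : 0 < n)
    have h1 := norm_bound h0 hn4 (hC n)
    have h2 : (97 + 306 * C) / (n : ℝ) < b - 31 / 64 := by
      rw [div_lt_iff₀ hn']
      rw [div_lt_iff₀ hb'] at hM
      have := mul_le_mul_of_nonneg_left hnM hb'.le
      linarith
    linarith

end Pool.Agent.N465.L2q
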