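import Pool.Agent.N465.L2q.Repsq
import Pool.Agent.N465.L2q.Shpq

/-! The final statements. -/

set_option autoImplicit false

open Finset Filter Topology

namespace Pool.Agent.N465.L2q

theorem uppR : UPPst := upp Pool.Agent.N465.L2.reps_okq

end Pool.Agent.N465.L2q
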