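import Pool.Agent.N465.L2q.Lvq
import Pool.Agent.N465.L2q.Cq0
import Pool.Agent.N465.L2q.Cq1
import Pool.Agent.N465.L2q.Cq2
import Pool.Agent.N465.L2q.Cq3
import Pool.Agent.N465.L2q.Cq4
import Pool.Agent.N465.L2q.Cq5
import Pool.Agent.N465.L2q.Cq6
import Pool.Agent.N465.L2q.Cq7
import Pool.Agent.N465.L2q.Cq8
import Pool.Agent.N465.L2q.Cq9
import Pool.Agent.N465.L2q.Cq10
import Pool.Agent.N465.L2q.Cq11
import Pool.Agent.N465.L2q.Cq12
import Pool.Agent.N465.L2q.Cq13
import Pool.Agent.N465.L2q.Cq14
import Pool.Agent.N465.L2q.Cq15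
import Pool.Agent.N465.L2q.Cq16
import Pool.Agent.N465.L2q.Cq17
import Pool.Agent.N465.L2q.Cq18
import Pool.Agent.N465.L2q.Cq19
import Pool.Agent.N465.L2q.Cq20
import Pool.Agent.N465.L2q.Cq21
import Pool.Agent.N465.L2q.Cq22
import Pool.Agent.N465.L2q.Cq23

/-! All checks together. -/

set_option autoImplicit false
set_option maxRecDepth 100000

namespace Pool.Agent.N465.L2

/-- all codes below `b` are checked -/
def Upq (K b : ℕ) : Prop := ∀ w < b, Lv1q K w = true

theorem up_zero (K : ℕ) : Upq K 0 := fun w hw => absurd hw (Nat.not_lt_zero w)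

theorem up_step {K b n : ℕ} (h : Upq K b) (hc : chkq K b n = true) : Upq K (b + n) := by
  intro w hw
  rcases Nat.lt_or_ge w b with h1 | h1
  · exact h w h1
  · exact chk_lvq hc w h1 hw

theorem fmcq {a : ℕ} {l : List ℕ} (h1 : Upq a 1024) (h2 : ∀ K ∈ l, ∀ w < 1024, Lv1q K w = true) :
    ∀ K ∈ a :: l, ∀ w < 1024, Lv1q K w = true := by
  intro K hK
  rcases List.mem_cons.mp hK with rfl | h
  · exact h1
  · exact h2 K h

theorem uq_31 : Upq 31 1024 := up_step (b := 0) (n := 1024) (up_zero 31) cq_31_0
theorem uq_60 : Upq 60 1024 := up_step (b := 0) (n := 1024) (up_zero 60) cq_60_0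
theorem uq_61 : Upq 61 1024 := up_step (b := 0) (n := 1024) (up_zero 61) cq_61_0
theorem uq_63 : Upq 63 1024 := up_step (b := 0) (n := 1024) (up_zero 63) cq_63_0
theorem uq_120 : Upq 120 1024 := up_step (b := 0) (n := 1024) (up_zero 120) cq_120_0
theorem uq_121 : Upq 121 1024 := up_step (b := 0) (n := 1024) (up_zero 121) cq_121_0
theorem uq_122 : Upq 122 1024 := up_step (b := 0) (n := 1024) (up_zero 122) cq_122_0
theorem uq_123 : Upq 123 1024 := up_step (b := 0) (n := 1024) (up_zero 123) cq_123_0
theorem uq_126 : Upq 126 1024 := up_step (b := 0) (n := 1024) (up_zero 126) cq_126_0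
theorem uq_127 : Upq 127 1024 := up_step (b := 512) (n := 512) (up_step (b := 0) (n := 512) (up_zero 127) cq_127_0) cq_127_512
theorem uq_246 : Upq 246 1024 := up_step (b := 0) (n := 1024) (up_zero 246) cq_246_0
theorem uq_247 : Upq 247 1024 := up_step (b := 512) (n := 512) (up_step (b := 0) (n := 512) (up_zero 247) cq_247_0) cq_247_512
theorem uq_254 : Upq 254 1024 := up_step (b := 512) (n := 512) (up_step (b := 0) (n := 512) (up_zero 254) cq_254_0) cq_254_512
theorem uq_255 : Upq 255 1024 := up_step (b := 512) (n := 512) (up_step (b := 0) (n := 512) (up_zero 255) cq_255_0) cq_255_512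
theorem uq_510 : Upq 510 1024 := up_step (b := 512) (n := 512) (up_step (b := 0) (n := 512) (up_zero 510) cq_510_0) cq_510_512
theorem uq_511 : Upq 511 1024 := up_step (b := 768) (n := 256) (up_step (b := 512) (n := 256) (up_step (b := 256) (n := 256) (up_step (b := 0) (n := 256) (up_zero 511) cq_511_0) cq_511_256) cq_511_512) cq_511_768
theorem uq_632 : Upq 632 1024 := up_step (b := 0) (n := 1024) (up_zero 632) cq_632_0
theorem uq_633 : Upq 633 1024 := up_step (b := 0) (n := 1024) (up_zero 633) cq_633_0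
theorem uq_635 : Upq 635 1024 := up_step (b := 512) (n := 512) (up_step (b := 0) (n := 512) (up_zero 635) cq_635_0) cq_635_512
theorem uq_639 : Upq 639 1024 := up_step (b := 768) (n := 256) (up_step (b := 512) (n := 256) (up_step (b := 256) (n := 256) (up_step (b := 0) (n := 256) (up_zero 639) cq_639_0) cq_639_256) cq_639_512) cq_639_768
theorem uq_656 : Upq 656 1024 := up_step (b := 0) (n := 1024) (up_zero 656) cq_656_0
theorem uq_657 : Upq 657 1024 := up_step (b := 0) (n := 1024) (up_zero 657) cq_657_0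
theorem uq_659 : Upq 659 1024 := up_step (b := 0) (n := 1024) (up_zero 659) cq_659_0
theorem uq_662 : Upq 662 1024 := up_step (b := 0) (n := 1024) (up_zero 662) cq_662_0
theorem uq_663 : Upq 663 1024 := up_step (b := 0) (n := 1024) (up_zero 663) cq_663_0
theorem uq_671 : Upq 671 1024 := up_step (b := 512) (n := 512) (up_step (b := 0) (n := 512) (up_zero 671) cq_671_0) cq_671_512
theorem uq_691 : Upq 691 1024 := up_step (b := 0) (n := 1024) (up_zero 691) cq_691_0
theorem uq_692 : Upq 692 1024 := up_step (b := 0) (n := 1024) (up_zero 692) cq_692_0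
theorem uq_693 : Upq 693 1024 := up_step (b := 0) (n := 1024) (up_zero 693) cq_693_0
theorem uq_694 : Upq 694 1024 := up_step (b := 0) (n := 1024) (up_zero 694) cq_694_0
theorem uq_695 : Upq 695 1024 := up_step (b := 512) (n := 512) (up_step (b := 0) (n := 512) (up_zero 695) cq_695_0) cq_695_512
theorem uq_700 : Upq 700 1024 := up_step (b := 0) (n := 1024) (up_zero 700) cq_700_0
theorem uq_701 : Upq 701 1024 := up_step (b := 512) (n := 512) (up_step (b := 0) (n := 512) (up_zero 701) cq_701_0) cq_701_512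
theorem uq_703 : Upq 703 1024 := up_step (b := 512) (n := 512) (up_step (b := 0) (n := 512) (up_zero 703) cq_703_0) cq_703_512
theorem uq_758 : Upq 758 1024 := up_step (b := 512) (n := 512) (up_step (b := 0) (n := 512) (up_zero 758) cq_758_0) cq_758_512
theorem uq_759 : Upq 759 1024 := up_step (b := 768) (n := 256) (up_step (b := 512) (n := 256) (up_step (b := 256) (n := 256) (up_step (b := 0) (n := 256) (up_zero 759) cq_759_0) cq_759_256) cq_759_512) cq_759_768
theorem uq_760 : Upq 760 1024 := up_step (b := 512) (n := 512) (up_step (b := 0) (n := 512) (up_zero 760) cq_760_0) cq_760_512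
theorem uq_761 : Upq 761 1024 := up_step (b := 512) (n := 512) (up_step (b := 0) (n := 512) (up_zero 761) cq_761_0) cq_761_512
theorem uq_762 : Upq 762 1024 := up_step (b := 512) (n := 512) (up_step (b := 0) (n := 512) (up_zero 762) cq_762_0) cq_762_512
theorem uq_763 : Upq 763 1024 := up_step (b := 512) (n := 512) (up_step (b := 0) (n := 512) (up_zero 763) cq_763_0) cq_763_512
theorem uq_766 : Upq 766 1024 := up_step (b := 512) (n := 512) (up_step (b := 0) (n := 512) (up_zero 766) cq_766_0) cq_766_512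
theorem uq_767 : Upq 767 1024 := up_step (b := 768) (n := 256) (up_step (b := 512) (n := 256) (up_step (b := 256) (n := 256) (up_step (b := 0) (n := 256) (up_zero 767) cq_767_0) cq_767_256) cq_767_512) cq_767_768
theorem uq_920 : Upq 920 1024 := up_step (b := 0) (n := 1024) (up_zero 920) cq_920_0
theorem uq_921 : Upq 921 1024 := up_step (b := 0) (n := 1024) (up_zero 921) cq_921_0
theorem uq_922 : Upq 922 1024 := up_step (b := 0) (n := 1024) (up_zero 922) cq_922_0
theorem uq_923 : Upq 923 1024 := up_step (b := 512) (n := 512) (up_step (b := 0) (n := 512) (up_zero 923) cq_923_0) cq_923_512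
theorem uq_926 : Upq 926 1024 := up_step (b := 512) (n := 512) (up_step (b := 0) (n := 512) (up_zero 926) cq_926_0) cq_926_512
theorem uq_927 : Upq 927 1024 := up_step (b := 512) (n := 512) (up_step (b := 0) (n := 512) (up_zero 927) cq_927_0) cq_927_512
theorem uq_954 : Upq 954 1024 := up_step (b := 512) (n := 512) (up_step (b := 0) (n := 512) (up_zero 954) cq_954_0) cq_954_512
theorem uq_955 : Upq 955 1024 := up_step (b := 512) (n := 512) (up_step (b := 0) (n := 512) (up_zero 955) cq_955_0) cq_955_512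
theorem uq_956 : Upq 956 1024 := up_step (b := 512) (n := 512) (up_step (b := 0) (n := 512) (up_zero 956) cq_956_0) cq_956_512
theorem uq_957 : Upq 957 1024 := up_step (b := 512) (n := 512) (up_step (b := 0) (n := 512) (up_zero 957) cq_957_0) cq_957_512
theorem uq_958 : Upq 958 1024 := up_step (b := 512) (n := 512) (up_step (b := 0) (n := 512) (up_zero 958) cq_958_0) cq_958_512
theorem uq_959 : Upq 959 1024 := up_step (b := 512) (n := 512) (up_step (b := 0) (n := 512) (up_zero 959) cq_959_0) cq_959_512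
theorem uq_1022 : Upq 1022 1024 := up_step (b := 512) (n := 512) (up_step (b := 0) (n := 512) (up_zero 1022) cq_1022_0) cq_1022_512
theorem uq_1023 : Upq 1023 1024 := up_step (b := 768) (n := 256) (up_step (b := 512) (n := 256) (up_step (b := 256) (n := 256) (up_step (b := 0) (n := 256) (up_zero 1023) cq_1023_0) cq_1023_256) cq_1023_512) cq_1023_768
theorem uq_1749 : Upq 1749 1024 := up_step (b := 512) (n := 512) (up_step (b := 0) (n := 512) (up_zero 1749) cq_1749_0) cq_1749_512
theorem uq_1751 : Upq 1751 1024 := up_step (b := 768) (n := 256) (up_step (b := 512) (n := 256) (up_step (b := 256) (n := 256) (up_step (b := 0) (n := 256) (up_zero 1751) cq_1751_0) cq_1751_256) cq_1751_512) cq_1751_768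
theorem uq_1759 : Upq 1759 1024 := up_step (b := 768) (n := 256) (up_step (b := 512) (n := 256) (up_step (b := 256) (n := 256) (up_step (b := 0) (n := 256) (up_zero 1759) cq_1759_0) cq_1759_256) cq_1759_512) cq_1759_768
theorem uq_1780 : Upq 1780 1024 := up_step (b := 768) (n := 256) (up_step (b := 512) (n := 256) (up_step (b := 256) (n := 256) (up_step (b := 0) (n := 256) (up_zero 1780) cq_1780_0) cq_1780_256) cq_1780_512) cq_1780_768
theorem uq_1781 : Upq 1781 1024 := up_step (b := 768) (n := 256) (up_step (b := 512) (n := 256) (up_step (b := 256) (n := 256) (up_step (b := 0) (n := 256) (up_zero 1781) cq_1781_0) cq_1781_256) cq_1781_512) cq_1781_768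
theorem uq_1783 : Upq 1783 1024 := up_step (b := 768) (n := 256) (up_step (b := 512) (n := 256) (up_step (b := 256) (n := 256) (up_step (b := 0) (n := 256) (up_zero 1783) cq_1783_0) cq_1783_256) cq_1783_512) cq_1783_768
theorem uq_1788 : Upq 1788 1024 := up_step (b := 768) (n := 256) (up_step (b := 512) (n := 256) (up_step (b := 256) (n := 256) (up_step (b := 0) (n := 256) (up_zero 1788) cq_1788_0) cq_1788_256) cq_1788_512) cq_1788_768
theorem uq_1789 : Upq 1789 1024 := up_step (b := 768) (n := 256) (up_step (b := 512) (n := 256) (up_step (b := 256) (n := 256) (up_step (b := 0) (n := 256) (up_zero 1789) cq_1789_0) cq_1789_256) cq_1789_512) cq_1789_768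
theorem uq_1791 : Upq 1791 1024 := up_step (b := 768) (n := 256) (up_step (b := 512) (n := 256) (up_step (b := 256) (n := 256) (up_step (b := 0) (n := 256) (up_zero 1791) cq_1791_0) cq_1791_256) cq_1791_512) cq_1791_768
theorem uq_1880 : Upq 1880 1024 := up_step (b := 512) (n := 512) (up_step (b := 0) (n := 512) (up_zero 1880) cq_1880_0) cq_1880_512
theorem uq_1881 : Upq 1881 1024 := up_step (b := 512) (n := 512) (up_step (b := 0) (n := 512) (up_zero 1881) cq_1881_0) cq_1881_512
theorem uq_1883 : Upq 1883 1024 := up_step (b := 512) (n := 512) (up_step (b := 0) (n := 512) (up_zero 1883) cq_1883_0) cq_1883_512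
theorem uq_1884 : Upq 1884 1024 := up_step (b := 512) (n := 512) (up_step (b := 0) (n := 512) (up_zero 1884) cq_1884_0) cq_1884_512
theorem uq_1885 : Upq 1885 1024 := up_step (b := 512) (n := 512) (up_step (b := 0) (n := 512) (up_zero 1885) cq_1885_0) cq_1885_512
theorem uq_1887 : Upq 1887 1024 := up_step (b := 512) (n := 512) (up_step (b := 0) (n := 512) (up_zero 1887) cq_1887_0) cq_1887_512
theorem uq_1915 : Upq 1915 1024 := up_step (b := 512) (n := 512) (up_step (b := 0) (n := 512) (up_zero 1915) cq_1915_0) cq_1915_512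
theorem uq_1916 : Upq 1916 1024 := up_step (b := 512) (n := 512) (up_step (b := 0) (n := 512) (up_zero 1916) cq_1916_0) cq_1916_512
theorem uq_1917 : Upq 1917 1024 := up_step (b := 512) (n := 512) (up_step (b := 0) (n := 512) (up_zero 1917) cq_1917_0) cq_1917_512
theorem uq_1919 : Upq 1919 1024 := up_step (b := 768) (n := 256) (up_step (b := 512) (n := 256) (up_step (b := 256) (n := 256) (up_step (b := 0) (n := 256) (up_zero 1919) cq_1919_0) cq_1919_256) cq_1919_512) cq_1919_768
theorem uq_2012 : Upq 2012 1024 := up_step (b := 768) (n := 256) (up_step (b := 512) (n := 256) (up_step (b := 256) (n := 256) (up_step (b := 0) (n := 256) (up_zero 2012) cq_2012_0) cq_2012_256) cq_2012_512) cq_2012_768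
theorem uq_2013 : Upq 2013 1024 := up_step (b := 512) (n := 512) (up_step (b := 0) (n := 512) (up_zero 2013) cq_2013_0) cq_2013_512
theorem uq_2014 : Upq 2014 1024 := up_step (b := 512) (n := 512) (up_step (b := 0) (n := 512) (up_zero 2014) cq_2014_0) cq_2014_512
theorem uq_2015 : Upq 2015 1024 := up_step (b := 768) (n := 256) (up_step (b := 512) (n := 256) (up_step (b := 256) (n := 256) (up_step (b := 0) (n := 256) (up_zero 2015) cq_2015_0) cq_2015_256) cq_2015_512) cq_2015_768
theorem uq_2046 : Upq 2046 1024 := up_step (b := 512) (n := 512) (up_step (b := 0) (n := 512) (up_zero 2046) cq_2046_0) cq_2046_512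
theorem uq_2047 : Upq 2047 1024 := up_step (b := 768) (n := 256) (up_step (b := 512) (n := 256) (up_step (b := 256) (n := 256) (up_step (b := 0) (n := 256) (up_zero 2047) cq_2047_0) cq_2047_256) cq_2047_512) cq_2047_768
theorem uq_4060 : Upq 4060 1024 := up_step (b := 768) (n := 256) (up_step (b := 512) (n := 256) (up_step (b := 256) (n := 256) (up_step (b := 0) (n := 256) (up_zero 4060) cq_4060_0) cq_4060_256) cq_4060_512) cq_4060_768
theorem uq_4061 : Upq 4061 1024 := up_step (b := 768) (n := 256) (up_step (b := 512) (n := 256) (up_step (b := 256) (n := 256) (up_step (b := 0) (n := 256) (up_zero 4061) cq_4061_0) cq_4061_256) cq_4061_512) cq_4061_768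
theorem uq_4063 : Upq 4063 1024 := up_step (b := 768) (n := 256) (up_step (b := 512) (n := 256) (up_step (b := 256) (n := 256) (up_step (b := 0) (n := 256) (up_zero 4063) cq_4063_0) cq_4063_256) cq_4063_512) cq_4063_768
theorem uq_4095 : Upq 4095 1024 := up_step (b := 896) (n := 128) (up_step (b := 768) (n := 128) (up_step (b := 640) (n := 128) (up_step (b := 512) (n := 128) (up_step (b := 384) (n := 128) (up_step (b := 256) (n := 128) (up_step (b := 128) (n := 128) (up_step (b := 0) (n := 128) (up_zero 4095) cq_4095_0) cq_4095_128) cq_4095_256) cq_4095_384) cq_4095_512) cq_4095_640) cq_4095_768) cq_4095_896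
theorem uq_5872 : Upq 5872 1024 := up_step (b := 768) (n := 256) (up_step (b := 512) (n := 256) (up_step (b := 256) (n := 256) (up_step (b := 0) (n := 256) (up_zero 5872) cq_5872_0) cq_5872_256) cq_5872_512) cq_5872_768
theorem uq_5873 : Upq 5873 1024 := up_step (b := 768) (n := 256) (up_step (b := 512) (n := 256) (up_step (b := 256) (n := 256) (up_step (b := 0) (n := 256) (up_zero 5873) cq_5873_0) cq_5873_256) cq_5873_512) cq_5873_768
theorem uq_5875 : Upq 5875 1024 := up_step (b := 512) (n := 512) (up_step (b := 0) (n := 512) (up_zero 5875) cq_5875_0) cq_5875_512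
theorem uq_5879 : Upq 5879 1024 := up_step (b := 512) (n := 512) (up_step (b := 0) (n := 512) (up_zero 5879) cq_5879_0) cq_5879_512
theorem uq_5887 : Upq 5887 1024 := up_step (b := 512) (n := 512) (up_step (b := 0) (n := 512) (up_zero 5887) cq_5887_0) cq_5887_512
theorem uq_5905 : Upq 5905 1024 := up_step (b := 512) (n := 512) (up_step (b := 0) (n := 512) (up_zero 5905) cq_5905_0) cq_5905_512
theorem uq_5907 : Upq 5907 1024 := up_step (b := 512) (n := 512) (up_step (b := 0) (n := 512) (up_zero 5907) cq_5907_0) cq_5907_512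
theorem uq_5911 : Upq 5911 1024 := up_step (b := 512) (n := 512) (up_step (b := 0) (n := 512) (up_zero 5911) cq_5911_0) cq_5911_512
theorem uq_5919 : Upq 5919 1024 := up_step (b := 768) (n := 256) (up_step (b := 512) (n := 256) (up_step (b := 256) (n := 256) (up_step (b := 0) (n := 256) (up_zero 5919) cq_5919_0) cq_5919_256) cq_5919_512) cq_5919_768
theorem uq_5941 : Upq 5941 1024 := up_step (b := 512) (n := 512) (up_step (b := 0) (n := 512) (up_zero 5941) cq_5941_0) cq_5941_512
theorem uq_5943 : Upq 5943 1024 := up_step (b := 512) (n := 512) (up_step (b := 0) (n := 512) (up_zero 5943) cq_5943_0) cq_5943_512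
theorem uq_5948 : Upq 5948 1024 := up_step (b := 512) (n := 512) (up_step (b := 0) (n := 512) (up_zero 5948) cq_5948_0) cq_5948_512
theorem uq_5949 : Upq 5949 1024 := up_step (b := 512) (n := 512) (up_step (b := 0) (n := 512) (up_zero 5949) cq_5949_0) cq_5949_512
theorem uq_5950 : Upq 5950 1024 := up_step (b := 512) (n := 512) (up_step (b := 0) (n := 512) (up_zero 5950) cq_5950_0) cq_5950_512
theorem uq_5951 : Upq 5951 1024 := up_step (b := 768) (n := 256) (up_step (b := 512) (n := 256) (up_step (b := 256) (n := 256) (up_step (b := 0) (n := 256) (up_zero 5951) cq_5951_0) cq_5951_256) cq_5951_512) cq_5951_768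
theorem uq_6007 : Upq 6007 1024 := up_step (b := 512) (n := 512) (up_step (b := 0) (n := 512) (up_zero 6007) cq_6007_0) cq_6007_512
theorem uq_6010 : Upq 6010 1024 := up_step (b := 512) (n := 512) (up_step (b := 0) (n := 512) (up_zero 6010) cq_6010_0) cq_6010_512
theorem uq_6011 : Upq 6011 1024 := up_step (b := 512) (n := 512) (up_step (b := 0) (n := 512) (up_zero 6011) cq_6011_0) cq_6011_512
theorem uq_6014 : Upq 6014 1024 := up_step (b := 512) (n := 512) (up_step (b := 0) (n := 512) (up_zero 6014) cq_6014_0) cq_6014_512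
theorem uq_6015 : Upq 6015 1024 := up_step (b := 512) (n := 512) (up_step (b := 0) (n := 512) (up_zero 6015) cq_6015_0) cq_6015_512
theorem uq_6142 : Upq 6142 1024 := up_step (b := 512) (n := 512) (up_step (b := 0) (n := 512) (up_zero 6142) cq_6142_0) cq_6142_512
theorem uq_6143 : Upq 6143 1024 := up_step (b := 768) (n := 256) (up_step (b := 512) (n := 256) (up_step (b := 256) (n := 256) (up_step (b := 0) (n := 256) (up_zero 6143) cq_6143_0) cq_6143_256) cq_6143_512) cq_6143_768
theorem uq_6654 : Upq 6654 1024 := up_step (b := 512) (n := 512) (up_step (b := 0) (n := 512) (up_zero 6654) cq_6654_0) cq_6654_512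
theorem uq_6655 : Upq 6655 1024 := up_step (b := 768) (n := 256) (up_step (b := 512) (n := 256) (up_step (b := 256) (n := 256) (up_step (b := 0) (n := 256) (up_zero 6655) cq_6655_0) cq_6655_256) cq_6655_512) cq_6655_768
theorem uq_7071 : Upq 7071 1024 := up_step (b := 768) (n := 256) (up_step (b := 512) (n := 256) (up_step (b := 256) (n := 256) (up_step (b := 0) (n := 256) (up_zero 7071) cq_7071_0) cq_7071_256) cq_7071_512) cq_7071_768
theorem uq_7100 : Upq 7100 1024 := up_step (b := 768) (n := 256) (up_step (b := 512) (n := 256) (up_step (b := 256) (n := 256) (up_step (b := 0) (n := 256) (up_zero 7100) cq_7100_0) cq_7100_256) cq_7100_512) cq_7100_768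
theorem uq_7101 : Upq 7101 1024 := up_step (b := 512) (n := 512) (up_step (b := 0) (n := 512) (up_zero 7101) cq_7101_0) cq_7101_512
theorem uq_7103 : Upq 7103 1024 := up_step (b := 512) (n := 512) (up_step (b := 0) (n := 512) (up_zero 7103) cq_7103_0) cq_7103_512
theorem uq_7166 : Upq 7166 1024 := up_step (b := 512) (n := 512) (up_step (b := 0) (n := 512) (up_zero 7166) cq_7166_0) cq_7166_512
theorem uq_7167 : Upq 7167 1024 := up_step (b := 768) (n := 256) (up_step (b := 512) (n := 256) (up_step (b := 256) (n := 256) (up_step (b := 0) (n := 256) (up_zero 7167) cq_7167_0) cq_7167_256) cq_7167_512) cq_7167_768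
theorem uq_8157 : Upq 8157 1024 := up_step (b := 512) (n := 512) (up_step (b := 0) (n := 512) (up_zero 8157) cq_8157_0) cq_8157_512
theorem uq_8159 : Upq 8159 1024 := up_step (b := 512) (n := 512) (up_step (b := 0) (n := 512) (up_zero 8159) cq_8159_0) cq_8159_512
theorem uq_8191 : Upq 8191 1024 := up_step (b := 768) (n := 256) (up_step (b := 512) (n := 256) (up_step (b := 256) (n := 256) (up_step (b := 0) (n := 256) (up_zero 8191) cq_8191_0) cq_8191_256) cq_8191_512) cq_8191_768
theorem uq_15870 : Upq 15870 1024 := up_step (b := 0) (n := 1024) (up_zero 15870) cq_15870_0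
theorem uq_15871 : Upq 15871 1024 := up_step (b := 512) (n := 512) (up_step (b := 0) (n := 512) (up_zero 15871) cq_15871_0) cq_15871_512
theorem uq_16383 : Upq 16383 1024 := up_step (b := 768) (n := 256) (up_step (b := 512) (n := 256) (up_step (b := 256) (n := 256) (up_step (b := 0) (n := 256) (up_zero 16383) cq_16383_0) cq_16383_256) cq_16383_512) cq_16383_768
theorem uq_32767 : Upq 32767 1024 := up_step (b := 896) (n := 128) (up_step (b := 768) (n := 128) (up_step (b := 640) (n := 128) (up_step (b := 512) (n := 128) (up_step (b := 384) (n := 128) (up_step (b := 256) (n := 128) (up_step (b := 128) (n := 128) (up_step (b := 0) (n := 128) (up_zero 32767) cq_32767_0) cq_32767_128) cq_32767_256) cq_32767_384) cq_32767_512) cq_32767_640) cq_32767_768) cq_32767_896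

theorem reps_okq : ∀ K ∈ repsL, ∀ w < 1024, Lv1q K w = true := by
  unfold repsL
  refine fmcq uq_31 ?_
  refine fmcq uq_60 ?_
  refine fmcq uq_61 ?_
  refine fmcq uq_63 ?_
  refine fmcq uq_120 ?_
  refine fmcq uq_121 ?_
  refine fmcq uq_122 ?_
  refine fmcq uq_123 ?_
  refine fmcq uq_126 ?_
  refine fmcq uq_127 ?_
  refine fmcq uq_246 ?_
  refine fmcq uq_247 ?_
  refine fmcq uq_254 ?_
  refine fmcq uq_255 ?_
  refine fmcq uq_510 ?_
  refine fmcq uq_511 ?_
  refine fmcq uq_632 ?_
  refine fmcq uq_633 ?_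
  refine fmcq uq_635 ?_
  refine fmcq uq_639 ?_
  refine fmcq uq_656 ?_
  refine fmcq uq_657 ?_
  refine fmcq uq_659 ?_
  refine fmcq uq_662 ?_
  refine fmcq uq_663 ?_
  refine fmcq uq_671 ?_
  refine fmcq uq_691 ?_
  refine fmcq uq_692 ?_
  refine fmcq uq_693 ?_
  refine fmcq uq_694 ?_
  refine fmcq uq_695 ?_
  refine fmcq uq_700 ?_
  refine fmcq uq_701 ?_
  refine fmcq uq_703 ?_
  refine fmcq uq_758 ?_
  refine fmcq uq_759 ?_
  refine fmcq uq_760 ?_
  refine fmcq uq_761 ?_
  refine fmcq uq_762 ?_
  refine fmcq uq_763 ?_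
  refine fmcq uq_766 ?_
  refine fmcq uq_767 ?_
  refine fmcq uq_920 ?_
  refine fmcq uq_921 ?_
  refine fmcq uq_922 ?_
  refine fmcq uq_923 ?_
  refine fmcq uq_926 ?_
  refine fmcq uq_927 ?_
  refine fmcq uq_954 ?_
  refine fmcq uq_955 ?_
  refine fmcq uq_956 ?_
  refine fmcq uq_957 ?_
  refine fmcq uq_958 ?_
  refine fmcq uq_959 ?_
  refine fmcq uq_1022 ?_
  refine fmcq uq_1023 ?_
  refine fmcq uq_1749 ?_
  refine fmcq uq_1751 ?_
  refine fmcq uq_1759 ?_
  refine fmcq uq_1780 ?_
  refine fmcq uq_1781 ?_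
  refine fmcq uq_1783 ?_
  refine fmcq uq_1788 ?_
  refine fmcq uq_1789 ?_
  refine fmcq uq_1791 ?_
  refine fmcq uq_1880 ?_
  refine fmcq uq_1881 ?_
  refine fmcq uq_1883 ?_
  refine fmcq uq_1884 ?_
  refine fmcq uq_1885 ?_
  refine fmcq uq_1887 ?_
  refine fmcq uq_1915 ?_
  refine fmcq uq_1916 ?_
  refine fmcq uq_1917 ?_
  refine fmcq uq_1919 ?_
  refine fmcq uq_2012 ?_
  refine fmcq uq_2013 ?_
  refine fmcq uq_2014 ?_
  refine fmcq uq_2015 ?_
  refine fmcq uq_2046 ?_
  refine fmcq uq_2047 ?_
  refine fmcq uq_4060 ?_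
  refine fmcq uq_4061 ?_
  refine fmcq uq_4063 ?_
  refine fmcq uq_4095 ?_
  refine fmcq uq_5872 ?_
  refine fmcq uq_5873 ?_
  refine fmcq uq_5875 ?_
  refine fmcq uq_5879 ?_
  refine fmcq uq_5887 ?_
  refine fmcq uq_5905 ?_
  refine fmcq uq_5907 ?_
  refine fmcq uq_5911 ?_
  refine fmcq uq_5919 ?_
  refine fmcq uq_5941 ?_
  refine fmcq uq_5943 ?_
  refine fmcq uq_5948 ?_
  refine fmcq uq_5949 ?_
  refine fmcq uq_5950 ?_
  refine fmcq uq_5951 ?_
  refine fmcq uq_6007 ?_
  refine fmcq uq_6010 ?_
  refine fmcq uq_6011 ?_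
  refine fmcq uq_6014 ?_
  refine fmcq uq_6015 ?_
  refine fmcq uq_6142 ?_
  refine fmcq uq_6143 ?_
  refine fmcq uq_6654 ?_
  refine fmcq uq_6655 ?_
  refine fmcq uq_7071 ?_
  refine fmcq uq_7100 ?_
  refine fmcq uq_7101 ?_
  refine fmcq uq_7103 ?_
  refine fmcq uq_7166 ?_
  refine fmcq uq_7167 ?_
  refine fmcq uq_8157 ?_
  refine fmcq uq_8159 ?_
  refine fmcq uq_8191 ?_
  refine fmcq uq_15870 ?_
  refine fmcq uq_15871 ?_
  refine fmcq uq_16383 ?_
  refine fmcq uq_32767 ?_
  intro K hK
  exact absurd hK (List.not_mem_nil)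

end Pool.Agent.N465.L2
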